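import Pool.Agent.Y559.FR.UpC

/-!
# An explicit packing with 1372 configurations at mesh `1/28`
-/

open MeasureTheory Set Filter Topology
open scoped unitInterval ENNReal

namespace Pool.Agent.Y559.FR

open Pool.Agent.Results.MP_2d7e0f_pr.SupAttained

/-- The packing. -/
def data : List ((ℕ × ℕ × ℕ) × (ℕ × ℕ × ℕ)) :=
  [((2, 18, 22), (17, 9, 5)), ((2, 21, 25), (8, 6, 2)), ((2, 23, 20), (15, 4, 7)),
   ((2, 24, 23), (9, 3, 4)), ((2, 25, 26), (7, 2, 1)), ((2, 26, 24), (5, 1, 3)),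
   ((3, 14, 19), (24, 13, 8)), ((3, 19, 19), (21, 7, 8)), ((3, 21, 26), (10, 6, 1)),
   ((3, 22, 24), (13, 4, 3)), ((3, 23, 25), (7, 4, 1)), ((3, 23, 26), (5, 3, 1)),
   ((3, 24, 21), (11, 3, 5)), ((3, 24, 25), (4, 2, 2)), ((3, 25, 23), (5, 2, 3)),
   ((3, 25, 23), (10, 1, 4)), ((3, 26, 24), (2, 1, 3)), ((4, 15, 22), (20, 11, 4)),
   ((4, 17, 21), (17, 9, 5)), ((4, 17, 22), (17, 8, 5)), ((4, 19, 24), (15, 7, 3)),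
   ((4, 20, 16), (19, 6, 10)), ((4, 21, 25), (5, 6, 1)), ((4, 21, 26), (8, 6, 1)),
   ((4, 23, 23), (12, 4, 2)), ((4, 23, 23), (14, 2, 4)), ((4, 24, 19), (13, 2, 7)),
   ((4, 24, 20), (15, 3, 5)), ((4, 24, 24), (8, 1, 3)), ((4, 25, 21), (11, 2, 4)),
   ((4, 25, 23), (7, 1, 4)), ((4, 25, 24), (3, 2, 2)), ((4, 26, 18), (11, 1, 8)),
   ((4, 26, 22), (4, 1, 3)), ((5, 15, 20), (17, 9, 7)), ((5, 17, 23), (16, 8, 3)),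
   ((5, 18, 22), (16, 8, 3)), ((5, 19, 20), (12, 6, 6)), ((5, 19, 26), (11, 5, 1)),
   ((5, 20, 21), (12, 6, 4)), ((5, 20, 23), (13, 4, 4)), ((5, 20, 24), (13, 5, 2)),
   ((5, 21, 25), (6, 4, 1)), ((5, 21, 25), (9, 3, 2)), ((5, 22, 18), (15, 4, 8)),
   ((5, 22, 19), (10, 4, 6)), ((5, 22, 26), (5, 3, 1)), ((5, 23, 21), (7, 2, 5)),
   ((5, 23, 21), (11, 4, 3)), ((5, 23, 24), (5, 4, 1)), ((5, 23, 25), (1, 4, 2)),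
   ((5, 24, 22), (4, 1, 5)), ((5, 24, 23), (9, 3, 1)), ((5, 25, 23), (4, 1, 4)),
   ((5, 26, 20), (7, 1, 6)), ((5, 26, 22), (7, 1, 3)), ((6, 15, 17), (21, 10, 8)),
   ((6, 18, 18), (11, 9, 8)), ((6, 18, 19), (15, 5, 8)), ((6, 18, 22), (16, 7, 3)),
   ((6, 19, 23), (8, 4, 4)), ((6, 19, 25), (10, 8, 1)), ((6, 20, 17), (17, 6, 7)),
   ((6, 20, 22), (10, 3, 5)), ((6, 20, 24), (8, 5, 1)), ((6, 20, 25), (10, 5, 1)),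
   ((6, 21, 21), (13, 3, 5)), ((6, 21, 22), (14, 6, 3)), ((6, 21, 23), (6, 5, 1)),
   ((6, 21, 24), (7, 2, 3)), ((6, 22, 17), (19, 2, 9)), ((6, 22, 21), (8, 5, 2)),
   ((6, 22, 23), (5, 5, 1)), ((6, 22, 23), (7, 3, 2)), ((6, 22, 25), (4, 4, 2)),
   ((6, 23, 20), (6, 1, 7)), ((6, 23, 23), (9, 1, 3)), ((6, 24, 20), (4, 2, 6)),
   ((6, 24, 20), (6, 1, 5)), ((6, 24, 22), (9, 2, 2)), ((6, 25, 19), (10, 1, 7)),
   ((6, 25, 21), (8, 1, 6)), ((6, 26, 17), (8, 1, 10)), ((6, 26, 19), (4, 1, 5)),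
   ((6, 26, 20), (5, 1, 6)), ((7, 14, 21), (16, 10, 4)), ((7, 15, 26), (14, 7, 1)),
   ((7, 16, 13), (18, 11, 14)), ((7, 17, 18), (9, 10, 9)), ((7, 17, 22), (12, 6, 4)),
   ((7, 18, 15), (14, 6, 12)), ((7, 18, 21), (10, 7, 3)), ((7, 18, 23), (7, 9, 2)),
   ((7, 18, 25), (9, 5, 1)), ((7, 19, 14), (20, 8, 8)), ((7, 19, 17), (17, 7, 6)),
   ((7, 19, 19), (11, 5, 6)), ((7, 19, 19), (16, 6, 5)), ((7, 19, 24), (9, 3, 3)),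
   ((7, 20, 19), (15, 7, 4)), ((7, 20, 20), (14, 5, 4)), ((7, 20, 24), (10, 4, 1)),
   ((7, 20, 25), (4, 6, 1)), ((7, 20, 26), (5, 3, 1)), ((7, 21, 18), (12, 5, 5)),
   ((7, 21, 20), (9, 3, 5)), ((7, 21, 22), (1, 6, 5)), ((7, 21, 22), (8, 4, 2)),
   ((7, 21, 23), (7, 2, 3)), ((7, 22, 17), (13, 2, 10)), ((7, 22, 21), (9, 5, 1)),
   ((7, 22, 23), (3, 4, 2)), ((7, 23, 16), (9, 3, 8)), ((7, 23, 22), (4, 1, 5)),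
   ((7, 24, 18), (12, 1, 9)), ((7, 24, 21), (6, 2, 2)), ((7, 24, 22), (1, 2, 4)),
   ((7, 25, 19), (11, 1, 7)), ((7, 25, 20), (4, 2, 3)), ((7, 25, 20), (9, 1, 5)),
   ((7, 26, 12), (15, 1, 14)), ((8, 11, 16), (16, 16, 11)), ((8, 13, 20), (10, 14, 7)),
   ((8, 14, 17), (19, 10, 8)), ((8, 15, 16), (19, 11, 6)), ((8, 15, 21), (16, 6, 6)),
   ((8, 15, 25), (11, 7, 1)), ((8, 16, 18), (19, 8, 8)), ((8, 17, 14), (19, 9, 10)),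
   ((8, 17, 22), (7, 8, 3)), ((8, 17, 24), (5, 10, 2)), ((8, 18, 19), (12, 5, 6)),
   ((8, 18, 25), (7, 7, 2)), ((8, 19, 21), (10, 6, 2)), ((8, 19, 23), (5, 7, 1)),
   ((8, 19, 24), (7, 5, 1)), ((8, 19, 25), (4, 7, 1)), ((8, 19, 26), (7, 5, 1)),
   ((8, 20, 15), (10, 7, 10)), ((8, 20, 17), (16, 6, 5)), ((8, 20, 18), (14, 7, 3)),
   ((8, 20, 20), (12, 4, 4)), ((8, 20, 21), (10, 6, 2)), ((8, 20, 23), (4, 3, 3)),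
   ((8, 20, 24), (7, 1, 3)), ((8, 21, 17), (15, 2, 8)), ((8, 21, 20), (3, 4, 7)),
   ((8, 21, 20), (10, 1, 6)), ((8, 21, 22), (11, 6, 1)), ((8, 22, 19), (5, 2, 8)),
   ((8, 22, 19), (9, 4, 4)), ((8, 22, 20), (13, 1, 6)), ((8, 22, 21), (9, 2, 3)),
   ((8, 22, 21), (11, 5, 1)), ((8, 23, 11), (14, 2, 13)), ((8, 23, 12), (11, 2, 13)),
   ((8, 23, 14), (15, 2, 13)), ((8, 23, 17), (8, 4, 4)), ((8, 23, 20), (7, 3, 2)),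
   ((8, 24, 17), (12, 1, 8)), ((8, 24, 18), (7, 1, 5)), ((8, 25, 12), (13, 2, 15)),
   ((8, 25, 18), (12, 1, 6)), ((8, 26, 19), (5, 1, 5)), ((9, 9, 24), (13, 15, 2)),
   ((9, 12, 22), (15, 10, 3)), ((9, 12, 22), (17, 8, 5)), ((9, 13, 26), (8, 10, 1)),
   ((9, 14, 19), (10, 11, 7)), ((9, 15, 17), (11, 10, 9)), ((9, 15, 20), (17, 6, 7)),
   ((9, 15, 22), (8, 12, 2)), ((9, 16, 14), (12, 11, 11)), ((9, 16, 19), (15, 6, 7)),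
   ((9, 16, 20), (11, 7, 4)), ((9, 16, 26), (6, 4, 1)), ((9, 17, 11), (14, 10, 16)),
   ((9, 17, 12), (15, 9, 12)), ((9, 17, 24), (7, 4, 2)), ((9, 17, 24), (11, 9, 1)),
   ((9, 18, 12), (16, 9, 9)), ((9, 18, 15), (18, 7, 7)), ((9, 18, 18), (15, 5, 6)),
   ((9, 18, 20), (6, 9, 3)), ((9, 18, 21), (11, 2, 6)), ((9, 18, 25), (4, 4, 1)),
   ((9, 19, 17), (16, 5, 6)), ((9, 19, 18), (15, 8, 2)), ((9, 19, 23), (6, 8, 1)),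
   ((9, 19, 24), (5, 6, 2)), ((9, 19, 24), (13, 8, 1)), ((9, 19, 25), (8, 6, 2)),
   ((9, 20, 16), (13, 5, 7)), ((9, 20, 18), (8, 1, 9)), ((9, 20, 20), (3, 6, 5)),
   ((9, 20, 23), (10, 6, 1)), ((9, 21, 10), (10, 6, 16)), ((9, 21, 19), (10, 5, 2)),
   ((9, 21, 21), (5, 6, 1)), ((9, 21, 22), (5, 5, 1)), ((9, 21, 23), (1, 3, 4)),
   ((9, 22, 13), (12, 5, 7)), ((9, 22, 16), (13, 1, 11)), ((9, 22, 18), (4, 3, 8)),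
   ((9, 22, 19), (10, 2, 4)), ((9, 22, 19), (14, 1, 5)), ((9, 23, 12), (15, 1, 13)),
   ((9, 23, 17), (15, 3, 4)), ((9, 23, 18), (9, 1, 5)), ((9, 23, 21), (6, 1, 3)),
   ((9, 23, 21), (9, 2, 1)), ((9, 24, 15), (9, 3, 5)), ((9, 24, 16), (4, 3, 9)),
   ((9, 24, 18), (3, 2, 9)), ((9, 25, 15), (9, 1, 7)), ((9, 25, 19), (8, 2, 1)),
   ((9, 26, 17), (4, 1, 4)), ((10, 8, 26), (16, 17, 1)), ((10, 11, 21), (14, 8, 6)),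
   ((10, 12, 11), (16, 15, 15)), ((10, 13, 12), (16, 13, 15)), ((10, 13, 15), (13, 12, 11)),
   ((10, 14, 19), (13, 9, 4)), ((10, 14, 21), (17, 6, 6)), ((10, 14, 22), (16, 6, 4)),
   ((10, 15, 9), (17, 12, 15)), ((10, 15, 19), (12, 6, 6)), ((10, 15, 21), (12, 12, 1)),
   ((10, 15, 22), (10, 10, 1)), ((10, 15, 26), (4, 6, 1)), ((10, 16, 22), (11, 8, 2)),
   ((10, 16, 22), (12, 3, 5)), ((10, 16, 23), (5, 7, 2)), ((10, 16, 24), (8, 4, 2)),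
   ((10, 17, 20), (14, 6, 3)), ((10, 17, 22), (12, 5, 2)), ((10, 17, 23), (3, 9, 3)),
   ((10, 17, 24), (2, 5, 3)), ((10, 18, 16), (15, 7, 7)), ((10, 18, 17), (5, 8, 9)),
   ((10, 18, 20), (3, 8, 5)), ((10, 18, 21), (6, 8, 1)), ((10, 18, 23), (8, 7, 1)),
   ((10, 18, 24), (5, 1, 3)), ((10, 19, 10), (13, 4, 17)), ((10, 19, 14), (7, 8, 11)),
   ((10, 19, 17), (7, 4, 9)), ((10, 19, 22), (7, 4, 1)), ((10, 20, 13), (17, 6, 7)),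
   ((10, 20, 19), (1, 7, 6)), ((10, 20, 19), (5, 2, 8)), ((10, 20, 20), (8, 1, 6)),
   ((10, 20, 22), (14, 7, 1)), ((10, 21, 8), (17, 2, 19)), ((10, 21, 18), (6, 3, 6)),
   ((10, 21, 20), (5, 6, 1)), ((10, 21, 21), (8, 3, 1)), ((10, 22, 20), (7, 3, 1)),
   ((10, 23, 14), (12, 2, 7)), ((10, 23, 16), (7, 1, 10)), ((10, 24, 11), (15, 2, 14)),
   ((10, 24, 17), (4, 1, 6)), ((10, 24, 18), (3, 1, 6)), ((10, 24, 18), (7, 3, 1)),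
   ((10, 25, 15), (10, 2, 4)), ((10, 25, 16), (4, 1, 8)), ((10, 25, 18), (3, 1, 3)),
   ((10, 26, 16), (5, 1, 6)), ((11, 6, 24), (16, 20, 1)), ((11, 10, 20), (9, 17, 6)),
   ((11, 10, 25), (14, 8, 2)), ((11, 11, 22), (9, 13, 3)), ((11, 12, 25), (7, 11, 1)),
   ((11, 13, 22), (11, 14, 2)), ((11, 13, 24), (8, 8, 1)), ((11, 13, 26), (10, 7, 1)),
   ((11, 14, 16), (15, 9, 7)), ((11, 14, 25), (9, 8, 1)), ((11, 14, 26), (8, 10, 1)),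
   ((11, 15, 19), (15, 12, 4)), ((11, 15, 20), (14, 5, 5)), ((11, 15, 23), (11, 11, 1)),
   ((11, 15, 25), (5, 9, 1)), ((11, 15, 26), (7, 3, 1)), ((11, 16, 16), (16, 4, 10)),
   ((11, 16, 20), (8, 6, 4)), ((11, 16, 20), (15, 8, 2)), ((11, 16, 21), (6, 6, 4)),
   ((11, 16, 26), (2, 5, 1)), ((11, 17, 12), (12, 9, 11)), ((11, 17, 16), (16, 8, 4)),
   ((11, 17, 17), (6, 9, 7)), ((11, 17, 21), (6, 4, 5)), ((11, 17, 22), (3, 9, 3)),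
   ((11, 17, 23), (8, 1, 4)), ((11, 18, 15), (4, 9, 12)), ((11, 18, 16), (13, 6, 6)),
   ((11, 18, 19), (7, 8, 1)), ((11, 18, 22), (3, 7, 2)), ((11, 19, 10), (15, 7, 10)),
   ((11, 19, 14), (14, 5, 7)), ((11, 19, 15), (11, 4, 7)), ((11, 19, 16), (7, 3, 11)),
   ((11, 19, 18), (4, 4, 8)), ((11, 19, 18), (9, 3, 6)), ((11, 19, 19), (5, 3, 6)),
   ((11, 19, 22), (8, 3, 1)), ((11, 20, 17), (8, 4, 4)), ((11, 20, 18), (7, 1, 6)),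
   ((11, 20, 18), (14, 4, 4)), ((11, 20, 21), (10, 6, 2)), ((11, 21, 13), (10, 3, 10)),
   ((11, 21, 14), (10, 2, 8)), ((11, 21, 14), (13, 5, 5)), ((11, 21, 18), (2, 4, 9)),
   ((11, 22, 11), (9, 5, 16)), ((11, 22, 17), (7, 1, 7)), ((11, 23, 13), (12, 3, 6)),
   ((11, 23, 15), (6, 1, 12)), ((11, 23, 16), (3, 4, 5)), ((11, 23, 17), (2, 4, 6)),
   ((11, 23, 18), (1, 4, 6)), ((11, 23, 19), (2, 1, 7)), ((11, 23, 19), (7, 2, 1)),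
   ((11, 24, 10), (8, 3, 14)), ((11, 24, 17), (10, 1, 4)), ((11, 25, 15), (5, 1, 6)),
   ((11, 25, 16), (7, 1, 8)), ((11, 26, 13), (10, 1, 5)), ((11, 26, 14), (12, 1, 11)),
   ((12, 11, 25), (6, 9, 2)), ((12, 11, 25), (9, 11, 1)), ((12, 12, 13), (12, 12, 14)),
   ((12, 12, 23), (11, 7, 2)), ((12, 13, 19), (5, 13, 8)), ((12, 13, 20), (14, 8, 3)),
   ((12, 13, 20), (15, 9, 2)), ((12, 13, 25), (13, 8, 1)), ((12, 14, 16), (11, 11, 7)),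
   ((12, 14, 17), (10, 9, 7)), ((12, 14, 21), (3, 12, 6)), ((12, 14, 24), (4, 8, 2)),
   ((12, 14, 24), (6, 7, 1)), ((12, 15, 8), (13, 10, 19)), ((12, 15, 15), (9, 9, 10)),
   ((12, 15, 19), (12, 6, 4)), ((12, 15, 19), (15, 5, 5)), ((12, 15, 21), (8, 3, 5)),
   ((12, 16, 15), (10, 6, 10)), ((12, 16, 17), (14, 9, 2)), ((12, 16, 18), (2, 9, 9)),
   ((12, 16, 21), (6, 11, 2)), ((12, 16, 22), (4, 7, 2)), ((12, 16, 25), (8, 8, 1)),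
   ((12, 17, 14), (10, 7, 9)), ((12, 17, 17), (15, 1, 10)), ((12, 17, 18), (10, 5, 4)),
   ((12, 17, 19), (8, 2, 6)), ((12, 17, 20), (6, 8, 1)), ((12, 17, 21), (7, 2, 5)),
   ((12, 18, 12), (10, 5, 13)), ((12, 18, 15), (7, 8, 7)), ((12, 18, 15), (10, 3, 11)),
   ((12, 18, 16), (11, 3, 7)), ((12, 18, 17), (13, 9, 1)), ((12, 18, 19), (10, 6, 1)),
   ((12, 18, 22), (11, 3, 2)), ((12, 18, 23), (7, 5, 4)), ((12, 19, 14), (6, 7, 13)),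
   ((12, 19, 19), (3, 3, 7)), ((12, 19, 19), (8, 6, 1)), ((12, 19, 22), (6, 8, 2)),
   ((12, 20, 11), (8, 5, 13)), ((12, 20, 17), (8, 2, 5)), ((12, 20, 17), (9, 6, 1)),
   ((12, 20, 19), (11, 7, 2)), ((12, 20, 21), (1, 2, 6)), ((12, 21, 7), (11, 5, 20)),
   ((12, 21, 12), (12, 5, 6)), ((12, 21, 16), (7, 2, 5)), ((12, 22, 14), (10, 1, 9)),
   ((12, 22, 15), (11, 1, 11)), ((12, 22, 16), (1, 5, 6)), ((12, 23, 13), (6, 2, 12)),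
   ((12, 23, 16), (10, 1, 8)), ((12, 23, 18), (4, 4, 1)), ((12, 24, 12), (8, 1, 10)),
   ((12, 24, 15), (4, 1, 8)), ((12, 24, 15), (9, 3, 2)), ((12, 24, 16), (5, 2, 5)),
   ((12, 25, 11), (11, 1, 10)), ((12, 25, 13), (4, 2, 10)), ((12, 25, 13), (10, 1, 9)),
   ((12, 26, 14), (8, 1, 4)), ((13, 8, 24), (14, 12, 1)), ((13, 10, 23), (14, 14, 1)),
   ((13, 11, 19), (14, 6, 7)), ((13, 11, 21), (10, 6, 6)), ((13, 11, 22), (14, 15, 1)),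
   ((13, 11, 24), (9, 8, 1)), ((13, 12, 11), (12, 15, 13)), ((13, 12, 13), (14, 12, 10)),
   ((13, 12, 22), (5, 12, 4)), ((13, 13, 13), (14, 12, 8)), ((13, 13, 18), (14, 6, 6)),
   ((13, 13, 22), (3, 12, 5)), ((13, 13, 24), (4, 9, 2)), ((13, 13, 24), (9, 5, 1)),
   ((13, 14, 12), (13, 12, 10)), ((13, 14, 14), (8, 13, 9)), ((13, 14, 17), (12, 4, 8)),
   ((13, 14, 24), (6, 2, 3)), ((13, 14, 25), (10, 7, 1)), ((13, 15, 14), (13, 7, 8)),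
   ((13, 15, 15), (10, 7, 9)), ((13, 15, 20), (2, 10, 6)), ((13, 15, 20), (6, 4, 7)),
   ((13, 15, 20), (8, 11, 1)), ((13, 15, 22), (12, 5, 1)), ((13, 15, 23), (3, 8, 2)),
   ((13, 16, 10), (10, 9, 15)), ((13, 16, 14), (11, 9, 6)), ((13, 16, 16), (12, 5, 6)),
   ((13, 16, 18), (12, 7, 3)), ((13, 16, 20), (4, 8, 3)), ((13, 16, 22), (1, 6, 5)),
   ((13, 17, 9), (14, 10, 11)), ((13, 17, 19), (10, 4, 3)), ((13, 17, 19), (12, 1, 7)),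
   ((13, 17, 23), (7, 1, 2)), ((13, 18, 11), (11, 7, 10)), ((13, 18, 12), (14, 9, 4)),
   ((13, 18, 18), (1, 8, 8)), ((13, 18, 21), (8, 7, 1)), ((13, 18, 22), (4, 1, 5)),
   ((13, 19, 16), (12, 1, 11)), ((13, 19, 17), (9, 1, 8)), ((13, 19, 18), (5, 8, 1)),
   ((13, 19, 20), (11, 8, 1)), ((13, 20, 8), (10, 6, 17)), ((13, 20, 10), (7, 6, 17)),
   ((13, 20, 11), (8, 4, 15)), ((13, 20, 12), (11, 5, 6)), ((13, 20, 12), (14, 4, 7)),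
   ((13, 20, 14), (11, 3, 6)), ((13, 20, 15), (2, 6, 8)), ((13, 21, 15), (12, 2, 7)),
   ((13, 21, 15), (13, 3, 8)), ((13, 21, 16), (9, 2, 4)), ((13, 21, 16), (11, 5, 1)),
   ((13, 21, 19), (9, 3, 2)), ((13, 22, 8), (13, 5, 9)), ((13, 22, 11), (6, 4, 14)),
   ((13, 22, 12), (14, 1, 8)), ((13, 22, 13), (7, 1, 8)), ((13, 23, 3), (13, 4, 18)),
   ((13, 23, 13), (4, 3, 9)), ((13, 23, 14), (6, 1, 10)), ((13, 23, 15), (2, 4, 5)),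
   ((13, 24, 15), (4, 1, 10)), ((13, 24, 16), (3, 1, 8)), ((13, 24, 16), (10, 3, 1)),
   ((13, 25, 10), (6, 2, 9)), ((13, 25, 14), (6, 1, 3)), ((14, 5, 17), (13, 22, 9)),
   ((14, 7, 26), (12, 11, 1)), ((14, 8, 21), (13, 9, 4)), ((14, 8, 25), (12, 16, 1)),
   ((14, 9, 25), (12, 6, 2)), ((14, 10, 16), (12, 11, 9)), ((14, 10, 21), (7, 10, 5)),
   ((14, 10, 22), (13, 12, 1)), ((14, 10, 26), (11, 9, 1)), ((14, 11, 15), (11, 14, 9)),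
   ((14, 11, 20), (11, 5, 6)), ((14, 11, 23), (7, 12, 2)), ((14, 11, 24), (6, 12, 3)),
   ((14, 12, 9), (12, 14, 17)), ((14, 12, 15), (13, 11, 6)), ((14, 12, 19), (7, 13, 4)),
   ((14, 12, 20), (3, 10, 7)), ((14, 12, 24), (7, 6, 1)), ((14, 13, 16), (13, 7, 6)),
   ((14, 13, 21), (4, 6, 6)), ((14, 13, 24), (7, 8, 1)), ((14, 13, 25), (6, 4, 1)),
   ((14, 14, 16), (6, 13, 6)), ((14, 14, 16), (13, 1, 11)), ((14, 14, 18), (4, 10, 6)),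
   ((14, 14, 20), (7, 9, 1)), ((14, 14, 23), (5, 6, 2)), ((14, 14, 25), (5, 6, 1)),
   ((14, 15, 7), (12, 11, 17)), ((14, 15, 18), (12, 5, 5)), ((14, 15, 19), (6, 11, 2)),
   ((14, 15, 21), (9, 8, 1)), ((14, 15, 24), (6, 1, 3)), ((14, 16, 17), (10, 6, 4)),
   ((14, 16, 18), (8, 1, 7)), ((14, 16, 19), (3, 4, 7)), ((14, 16, 22), (6, 3, 1)),
   ((14, 17, 13), (6, 6, 13)), ((14, 17, 15), (12, 5, 8)), ((14, 17, 17), (5, 3, 10)),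
   ((14, 17, 17), (10, 1, 7)), ((14, 17, 18), (9, 5, 2)), ((14, 17, 18), (12, 9, 1)),
   ((14, 18, 10), (13, 4, 11)), ((14, 18, 13), (11, 4, 7)), ((14, 18, 16), (7, 1, 9)),
   ((14, 18, 18), (1, 5, 9)), ((14, 18, 18), (7, 7, 1)), ((14, 19, 12), (7, 7, 8)),
   ((14, 19, 13), (13, 5, 5)), ((14, 19, 16), (12, 3, 11)), ((14, 19, 18), (9, 8, 1)),
   ((14, 20, 11), (4, 7, 15)), ((14, 20, 14), (5, 3, 8)), ((14, 20, 14), (12, 2, 6)),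
   ((14, 21, 8), (7, 6, 18)), ((14, 21, 11), (13, 4, 6)), ((14, 21, 12), (11, 2, 7)),
   ((14, 21, 12), (13, 1, 8)), ((14, 21, 13), (8, 6, 2)), ((14, 21, 15), (8, 3, 3)),
   ((14, 22, 4), (12, 4, 21)), ((14, 22, 11), (13, 1, 8)), ((14, 22, 14), (2, 4, 9)),
   ((14, 23, 14), (7, 2, 3)), ((14, 23, 15), (4, 4, 7)), ((14, 23, 16), (4, 3, 3)),
   ((14, 24, 8), (8, 2, 11)), ((14, 24, 8), (12, 1, 16)), ((14, 24, 10), (7, 1, 10)),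
   ((14, 24, 13), (5, 1, 9)), ((14, 24, 13), (9, 2, 3)), ((14, 25, 10), (7, 1, 7)),
   ((14, 25, 14), (2, 2, 6)), ((14, 26, 7), (9, 1, 13)), ((14, 26, 12), (7, 1, 3)),
   ((15, 7, 14), (11, 18, 11)), ((15, 7, 26), (12, 14, 1)), ((15, 8, 21), (6, 18, 6)),
   ((15, 8, 21), (8, 14, 4)), ((15, 8, 24), (11, 13, 2)), ((15, 9, 18), (9, 13, 6)),
   ((15, 9, 25), (5, 8, 2)), ((15, 10, 19), (10, 17, 3)), ((15, 10, 23), (8, 7, 1)),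
   ((15, 10, 24), (6, 12, 1)), ((15, 11, 12), (8, 13, 15)), ((15, 11, 21), (11, 6, 3)),
   ((15, 11, 22), (8, 7, 1)), ((15, 11, 24), (4, 6, 2)), ((15, 11, 24), (12, 12, 1)),
   ((15, 12, 16), (7, 13, 6)), ((15, 12, 17), (5, 15, 7)), ((15, 12, 17), (6, 9, 9)),
   ((15, 12, 17), (9, 5, 10)), ((15, 12, 20), (11, 4, 5)), ((15, 13, 17), (9, 11, 2)),
   ((15, 13, 19), (3, 13, 6)), ((15, 13, 19), (10, 11, 1)), ((15, 13, 20), (10, 4, 4)),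
   ((15, 13, 22), (8, 2, 4)), ((15, 13, 25), (1, 6, 2)), ((15, 14, 12), (9, 11, 10)),
   ((15, 14, 16), (4, 7, 11)), ((15, 14, 16), (9, 4, 9)), ((15, 14, 17), (6, 5, 9)),
   ((15, 14, 19), (9, 4, 4)), ((15, 14, 23), (3, 8, 1)), ((15, 15, 9), (9, 9, 17)),
   ((15, 15, 11), (8, 9, 13)), ((15, 15, 13), (6, 12, 8)), ((15, 15, 14), (6, 6, 13)),
   ((15, 15, 16), (3, 8, 9)), ((15, 15, 22), (7, 7, 1)), ((15, 16, 15), (12, 6, 4)),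
   ((15, 16, 16), (3, 6, 9)), ((15, 16, 19), (1, 5, 8)), ((15, 16, 19), (8, 7, 2)),
   ((15, 16, 21), (8, 3, 1)), ((15, 16, 22), (9, 4, 2)), ((15, 17, 15), (5, 9, 4)),
   ((15, 17, 18), (5, 3, 8)), ((15, 18, 4), (12, 7, 22)), ((15, 18, 7), (10, 8, 14)),
   ((15, 18, 16), (5, 2, 7)), ((15, 19, 13), (10, 2, 7)), ((15, 19, 17), (1, 6, 5)),
   ((15, 20, 8), (7, 6, 18)), ((15, 20, 12), (8, 1, 9)), ((15, 20, 13), (9, 4, 4)),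
   ((15, 20, 15), (1, 5, 10)), ((15, 20, 15), (8, 1, 5)), ((15, 20, 16), (1, 4, 7)),
   ((15, 21, 12), (11, 1, 13)), ((15, 21, 13), (4, 4, 8)), ((15, 21, 14), (4, 2, 9)),
   ((15, 21, 15), (3, 6, 3)), ((15, 22, 13), (2, 4, 7)), ((15, 22, 16), (2, 5, 1)),
   ((15, 23, 10), (11, 1, 7)), ((15, 23, 12), (2, 4, 10)), ((15, 23, 14), (9, 1, 4)),
   ((15, 24, 10), (9, 1, 13)), ((15, 24, 11), (3, 3, 10)), ((15, 24, 14), (5, 2, 6)),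
   ((15, 24, 14), (8, 3, 1)), ((15, 25, 9), (6, 2, 10)), ((15, 25, 10), (8, 1, 8)),
   ((15, 25, 11), (7, 1, 9)), ((15, 25, 12), (5, 1, 10)), ((15, 26, 10), (5, 1, 10)),
   ((16, 5, 20), (9, 21, 6)), ((16, 6, 21), (8, 19, 6)), ((16, 6, 22), (9, 18, 3)),
   ((16, 7, 22), (6, 14, 5)), ((16, 7, 25), (11, 14, 1)), ((16, 8, 20), (11, 16, 1)),
   ((16, 8, 24), (7, 10, 1)), ((16, 8, 26), (6, 8, 1)), ((16, 9, 23), (7, 10, 1)),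
   ((16, 9, 24), (8, 12, 1)), ((16, 9, 25), (6, 8, 1)), ((16, 9, 26), (6, 4, 1)),
   ((16, 10, 13), (9, 13, 12)), ((16, 10, 17), (10, 15, 4)), ((16, 10, 23), (6, 8, 1)),
   ((16, 10, 25), (8, 4, 1)), ((16, 11, 18), (9, 16, 2)), ((16, 11, 19), (4, 10, 6)),
   ((16, 11, 20), (10, 6, 3)), ((16, 11, 23), (2, 10, 4)), ((16, 11, 24), (7, 9, 2)),
   ((16, 12, 15), (5, 15, 9)), ((16, 12, 15), (8, 6, 12)), ((16, 12, 17), (6, 12, 5)),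
   ((16, 12, 18), (5, 10, 5)), ((16, 12, 22), (9, 3, 3)), ((16, 12, 25), (4, 4, 1)),
   ((16, 13, 15), (2, 10, 12)), ((16, 13, 15), (4, 13, 8)), ((16, 13, 19), (10, 7, 1)),
   ((16, 13, 22), (3, 10, 2)), ((16, 14, 11), (6, 11, 16)), ((16, 14, 12), (6, 8, 14)),
   ((16, 14, 17), (10, 7, 2)), ((16, 14, 18), (5, 10, 3)), ((16, 14, 19), (9, 3, 4)),
   ((16, 14, 21), (8, 5, 1)), ((16, 15, 14), (6, 5, 12)), ((16, 15, 16), (6, 10, 3)),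
   ((16, 15, 17), (8, 5, 4)), ((16, 15, 19), (1, 8, 5)), ((16, 15, 20), (1, 5, 7)),
   ((16, 16, 11), (7, 10, 9)), ((16, 16, 12), (7, 5, 15)), ((16, 16, 14), (10, 3, 7)),
   ((16, 16, 15), (4, 6, 8)), ((16, 16, 16), (5, 3, 8)), ((16, 17, 7), (10, 8, 15)),
   ((16, 17, 8), (6, 9, 19)), ((16, 17, 9), (8, 6, 17)), ((16, 17, 16), (6, 1, 7)),
   ((16, 17, 19), (10, 7, 2)), ((16, 18, 5), (8, 9, 21)), ((16, 18, 13), (3, 6, 9)),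
   ((16, 18, 14), (9, 5, 3)), ((16, 18, 15), (9, 3, 4)), ((16, 18, 17), (8, 4, 1)),
   ((16, 18, 18), (10, 1, 9)), ((16, 19, 9), (5, 7, 13)), ((16, 19, 14), (4, 5, 6)),
   ((16, 20, 9), (6, 5, 17)), ((16, 20, 12), (5, 5, 6)), ((16, 20, 13), (1, 7, 8)),
   ((16, 20, 13), (6, 1, 10)), ((16, 21, 10), (8, 4, 6)), ((16, 21, 12), (2, 5, 9)),
   ((16, 21, 13), (8, 5, 1)), ((16, 22, 8), (7, 3, 11)), ((16, 22, 12), (1, 5, 11)),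
   ((16, 22, 12), (10, 1, 8)), ((16, 22, 14), (3, 5, 2)), ((16, 23, 10), (3, 4, 10)),
   ((16, 25, 10), (4, 1, 8)), ((16, 26, 6), (9, 1, 8)), ((16, 26, 8), (7, 1, 10)),
   ((16, 26, 9), (9, 1, 8)), ((16, 26, 11), (6, 1, 5)), ((17, 4, 25), (8, 10, 2)),
   ((17, 5, 26), (10, 12, 1)), ((17, 6, 23), (10, 16, 1)), ((17, 6, 26), (7, 6, 1)),
   ((17, 7, 17), (8, 19, 7)), ((17, 7, 21), (7, 16, 4)), ((17, 7, 22), (6, 17, 4)),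
   ((17, 7, 25), (8, 9, 2)), ((17, 8, 19), (9, 13, 3)), ((17, 8, 23), (8, 7, 1)),
   ((17, 8, 25), (5, 7, 1)), ((17, 8, 26), (4, 10, 1)), ((17, 9, 17), (8, 11, 7)),
   ((17, 9, 22), (10, 11, 1)), ((17, 9, 24), (4, 7, 2)), ((17, 9, 24), (9, 9, 1)),
   ((17, 10, 14), (7, 17, 8)), ((17, 10, 20), (6, 10, 4)), ((17, 10, 21), (8, 3, 5)),
   ((17, 10, 23), (4, 7, 2)), ((17, 10, 24), (2, 12, 3)), ((17, 11, 17), (3, 11, 8)),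
   ((17, 11, 17), (10, 7, 5)), ((17, 11, 18), (4, 10, 6)), ((17, 11, 20), (4, 6, 6)),
   ((17, 11, 22), (7, 5, 1)), ((17, 12, 14), (6, 8, 13)), ((17, 12, 15), (9, 7, 8)),
   ((17, 12, 20), (2, 12, 5)), ((17, 12, 20), (7, 9, 1)), ((17, 12, 21), (3, 9, 3)),
   ((17, 13, 4), (9, 14, 23)), ((17, 13, 21), (4, 11, 1)), ((17, 13, 22), (3, 10, 1)),
   ((17, 13, 23), (2, 6, 2)), ((17, 14, 15), (3, 7, 11)), ((17, 14, 15), (8, 6, 6)),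
   ((17, 14, 17), (3, 7, 6)), ((17, 14, 17), (6, 10, 3)), ((17, 14, 18), (2, 11, 6)),
   ((17, 14, 18), (6, 1, 9)), ((17, 14, 18), (10, 12, 1)), ((17, 14, 19), (3, 9, 3)),
   ((17, 15, 14), (10, 9, 1)), ((17, 15, 15), (3, 12, 6)), ((17, 15, 16), (2, 6, 10)),
   ((17, 15, 16), (4, 4, 11)), ((17, 15, 16), (7, 1, 8)), ((17, 16, 12), (7, 4, 11)),
   ((17, 16, 13), (7, 9, 4)), ((17, 16, 14), (3, 6, 13)), ((17, 16, 14), (5, 9, 4)),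
   ((17, 16, 19), (2, 2, 7)), ((17, 17, 9), (4, 9, 15)), ((17, 17, 10), (4, 8, 15)),
   ((17, 17, 10), (7, 5, 12)), ((17, 17, 11), (3, 8, 16)), ((17, 17, 11), (9, 10, 3)),
   ((17, 17, 16), (6, 8, 2)), ((17, 17, 17), (3, 8, 2)), ((17, 18, 7), (7, 7, 18)),
   ((17, 18, 8), (10, 4, 19)), ((17, 18, 9), (10, 7, 7)), ((17, 18, 12), (2, 7, 11)),
   ((17, 18, 13), (9, 1, 7)), ((17, 19, 11), (5, 4, 10)), ((17, 19, 11), (9, 3, 15)),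
   ((17, 19, 13), (2, 8, 5)), ((17, 19, 13), (6, 2, 6)), ((17, 19, 16), (3, 1, 8)),
   ((17, 20, 5), (8, 7, 20)), ((17, 20, 8), (7, 4, 15)), ((17, 20, 15), (2, 6, 4)),
   ((17, 21, 6), (6, 6, 18)), ((17, 21, 7), (10, 1, 18)), ((17, 21, 12), (3, 3, 11)),
   ((17, 21, 12), (4, 6, 2)), ((17, 22, 9), (6, 2, 9)), ((17, 22, 14), (6, 4, 1)),
   ((17, 23, 8), (8, 3, 6)), ((17, 23, 9), (3, 4, 8)), ((17, 23, 11), (9, 1, 7)),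
   ((17, 24, 12), (7, 2, 1)), ((17, 25, 7), (10, 1, 8)), ((17, 25, 10), (5, 1, 13)),
   ((17, 25, 11), (2, 1, 9)), ((17, 26, 7), (5, 1, 6)), ((17, 26, 8), (8, 1, 11)),
   ((17, 26, 10), (6, 1, 6)), ((18, 4, 20), (9, 19, 6)), ((18, 4, 26), (9, 10, 1)),
   ((18, 5, 25), (7, 9, 1)), ((18, 6, 24), (6, 9, 2)), ((18, 6, 26), (7, 6, 1)),
   ((18, 7, 23), (4, 8, 4)), ((18, 7, 23), (5, 12, 3)), ((18, 7, 24), (7, 12, 1)),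
   ((18, 8, 25), (3, 8, 2)), ((18, 8, 25), (5, 9, 1)), ((18, 9, 18), (4, 17, 7)),
   ((18, 9, 20), (5, 9, 4)), ((18, 9, 22), (7, 2, 5)), ((18, 9, 23), (9, 3, 3)),
   ((18, 10, 19), (3, 10, 6)), ((18, 10, 22), (7, 5, 1)), ((18, 10, 23), (1, 7, 4)),
   ((18, 10, 25), (2, 9, 1)), ((18, 11, 11), (9, 10, 13)), ((18, 11, 14), (1, 15, 12)),
   ((18, 11, 15), (5, 7, 12)), ((18, 11, 17), (7, 12, 3)), ((18, 11, 19), (6, 13, 2)),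
   ((18, 12, 13), (8, 7, 11)), ((18, 12, 16), (7, 12, 3)), ((18, 12, 18), (8, 5, 3)),
   ((18, 12, 21), (5, 2, 6)), ((18, 13, 13), (3, 14, 9)), ((18, 13, 17), (5, 3, 9)),
   ((18, 13, 18), (8, 2, 5)), ((18, 13, 20), (1, 9, 5)), ((18, 13, 20), (3, 2, 7)),
   ((18, 13, 22), (3, 9, 2)), ((18, 14, 9), (7, 8, 18)), ((18, 14, 15), (9, 5, 4)),
   ((18, 14, 18), (2, 10, 4)), ((18, 14, 18), (4, 8, 2)), ((18, 15, 14), (2, 10, 7)),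
   ((18, 15, 14), (6, 12, 3)), ((18, 15, 15), (4, 12, 4)), ((18, 15, 16), (5, 2, 9)),
   ((18, 16, 7), (7, 9, 19)), ((18, 16, 8), (9, 5, 14)), ((18, 16, 12), (3, 10, 7)),
   ((18, 16, 13), (9, 4, 5)), ((18, 16, 15), (6, 1, 8)), ((18, 16, 18), (2, 2, 9)),
   ((18, 17, 3), (9, 9, 24)), ((18, 17, 8), (6, 8, 18)), ((18, 17, 8), (8, 7, 11)),
   ((18, 17, 12), (2, 7, 9)), ((18, 17, 12), (7, 2, 10)), ((18, 17, 13), (9, 7, 1)),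
   ((18, 17, 14), (8, 4, 3)), ((18, 17, 17), (3, 1, 7)), ((18, 18, 8), (8, 4, 13)),
   ((18, 18, 9), (5, 6, 13)), ((18, 18, 13), (4, 3, 11)), ((18, 18, 14), (1, 5, 11)),
   ((18, 18, 14), (9, 4, 2)), ((18, 18, 17), (9, 8, 9)), ((18, 19, 12), (1, 6, 8)),
   ((18, 19, 12), (8, 4, 5)), ((18, 20, 10), (8, 4, 4)), ((18, 20, 11), (8, 2, 5)),
   ((18, 20, 12), (1, 7, 5)), ((18, 21, 4), (8, 6, 15)), ((18, 21, 6), (7, 4, 16)),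
   ((18, 21, 7), (7, 3, 11)), ((18, 21, 11), (2, 6, 5)), ((18, 21, 13), (5, 4, 4)),
   ((18, 22, 5), (7, 4, 14)), ((18, 22, 10), (1, 5, 11)), ((18, 22, 10), (6, 4, 2)),
   ((18, 22, 10), (8, 1, 6)), ((18, 22, 11), (4, 4, 2)), ((18, 22, 11), (8, 1, 4)),
   ((18, 24, 7), (7, 2, 10)), ((18, 24, 9), (3, 2, 5)), ((18, 24, 9), (7, 1, 12)),
   ((18, 24, 10), (4, 1, 10)), ((18, 25, 8), (4, 1, 9)), ((18, 25, 8), (5, 2, 3)),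
   ((18, 26, 6), (6, 1, 9)), ((18, 26, 9), (3, 1, 4)), ((19, 2, 17), (8, 22, 10)),
   ((19, 4, 20), (6, 19, 7)), ((19, 4, 24), (8, 14, 1)), ((19, 5, 14), (6, 22, 12)),
   ((19, 5, 26), (5, 8, 1)), ((19, 6, 16), (6, 19, 9)), ((19, 6, 25), (5, 10, 1)),
   ((19, 7, 16), (5, 13, 10)), ((19, 7, 19), (5, 13, 6)), ((19, 7, 23), (8, 8, 1)),
   ((19, 7, 24), (3, 10, 3)), ((19, 8, 15), (7, 19, 9)), ((19, 8, 20), (4, 12, 5)),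
   ((19, 8, 21), (3, 10, 5)), ((19, 8, 26), (4, 2, 1)), ((19, 9, 15), (6, 17, 7)),
   ((19, 9, 20), (8, 8, 1)), ((19, 9, 21), (1, 10, 6)), ((19, 9, 21), (5, 6, 3)),
   ((19, 9, 21), (8, 5, 2)), ((19, 9, 23), (6, 2, 3)), ((19, 9, 24), (6, 3, 1)),
   ((19, 10, 19), (3, 14, 6)), ((19, 10, 19), (8, 7, 1)), ((19, 10, 20), (3, 4, 7)),
   ((19, 10, 21), (7, 6, 1)), ((19, 11, 9), (7, 15, 12)), ((19, 11, 12), (8, 16, 6)),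
   ((19, 11, 13), (4, 16, 9)), ((19, 11, 14), (6, 15, 6)), ((19, 11, 15), (5, 6, 11)),
   ((19, 11, 18), (1, 9, 7)), ((19, 12, 15), (1, 9, 12)), ((19, 12, 15), (3, 7, 11)),
   ((19, 12, 16), (2, 11, 7)), ((19, 12, 16), (8, 1, 9)), ((19, 12, 17), (8, 6, 2)),
   ((19, 12, 18), (4, 7, 3)), ((19, 12, 18), (5, 5, 4)), ((19, 13, 11), (7, 7, 14)),
   ((19, 13, 12), (3, 9, 15)), ((19, 13, 13), (5, 12, 6)), ((19, 13, 16), (3, 9, 5)),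
   ((19, 13, 17), (7, 10, 1)), ((19, 14, 16), (6, 10, 1)), ((19, 14, 18), (7, 1, 4)),
   ((19, 15, 7), (5, 12, 17)), ((19, 15, 11), (5, 6, 11)), ((19, 15, 12), (4, 9, 7)),
   ((19, 15, 14), (6, 2, 13)), ((19, 16, 6), (7, 8, 18)), ((19, 16, 11), (6, 10, 4)),
   ((19, 16, 11), (8, 3, 15)), ((19, 16, 12), (3, 10, 6)), ((19, 16, 13), (2, 6, 9)),
   ((19, 16, 15), (4, 6, 2)), ((19, 16, 16), (4, 1, 7)), ((19, 18, 8), (5, 6, 12)),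
   ((19, 18, 13), (8, 2, 6)), ((19, 18, 14), (7, 1, 4)), ((19, 18, 15), (7, 7, 1)),
   ((19, 19, 8), (4, 6, 12)), ((19, 19, 9), (5, 4, 10)), ((19, 19, 11), (1, 8, 12)),
   ((19, 19, 12), (8, 2, 5)), ((19, 19, 13), (2, 7, 3)), ((19, 20, 7), (4, 6, 15)),
   ((19, 21, 3), (7, 6, 17)), ((19, 21, 9), (7, 1, 8)), ((19, 22, 4), (8, 4, 13)),
   ((19, 22, 6), (5, 4, 14)), ((19, 22, 7), (8, 1, 11)), ((19, 23, 8), (8, 3, 3)),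
   ((19, 23, 9), (3, 2, 6)), ((19, 23, 9), (6, 1, 4)), ((19, 23, 11), (2, 1, 7)),
   ((19, 24, 7), (5, 1, 7)), ((19, 24, 10), (1, 3, 5)), ((19, 25, 5), (5, 2, 7)),
   ((19, 25, 5), (8, 1, 13)), ((19, 26, 4), (7, 1, 14)), ((19, 26, 6), (7, 1, 4)),
   ((20, 4, 16), (6, 21, 10)), ((20, 4, 20), (6, 19, 7)), ((20, 5, 16), (6, 19, 11)),
   ((20, 5, 21), (7, 11, 3)), ((20, 6, 17), (7, 12, 7)), ((20, 6, 18), (5, 18, 9)),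
   ((20, 6, 24), (5, 8, 1)), ((20, 6, 25), (6, 9, 1)), ((20, 7, 14), (2, 20, 13)),
   ((20, 7, 14), (7, 14, 9)), ((20, 7, 18), (7, 8, 7)), ((20, 7, 19), (5, 17, 5)),
   ((20, 7, 21), (3, 15, 5)), ((20, 8, 13), (6, 18, 10)), ((20, 8, 13), (7, 19, 12)),
   ((20, 8, 22), (2, 6, 4)), ((20, 8, 23), (7, 4, 1)), ((20, 8, 24), (4, 1, 3)),
   ((20, 9, 16), (5, 12, 7)), ((20, 9, 19), (2, 14, 7)), ((20, 9, 21), (1, 5, 6)),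
   ((20, 9, 21), (5, 11, 1)), ((20, 10, 16), (4, 13, 6)), ((20, 10, 18), (3, 10, 5)),
   ((20, 10, 18), (6, 2, 9)), ((20, 10, 20), (1, 8, 6)), ((20, 10, 20), (7, 5, 1)),
   ((20, 10, 22), (6, 2, 2)), ((20, 11, 13), (5, 12, 13)), ((20, 11, 13), (7, 10, 7)),
   ((20, 11, 17), (3, 5, 8)), ((20, 11, 20), (7, 2, 3)), ((20, 11, 22), (1, 6, 5)),
   ((20, 12, 9), (5, 10, 15)), ((20, 12, 9), (7, 12, 11)), ((20, 12, 10), (5, 9, 17)),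
   ((20, 12, 14), (5, 10, 5)), ((20, 12, 15), (3, 6, 11)), ((20, 13, 14), (7, 4, 10)),
   ((20, 13, 15), (4, 9, 4)), ((20, 13, 16), (1, 7, 7)), ((20, 13, 16), (5, 2, 10)),
   ((20, 13, 17), (2, 8, 4)), ((20, 14, 8), (7, 8, 18)), ((20, 14, 11), (4, 9, 16)),
   ((20, 14, 14), (2, 6, 9)), ((20, 14, 14), (6, 4, 6)), ((20, 15, 7), (3, 12, 19)),
   ((20, 15, 10), (7, 4, 17)), ((20, 16, 10), (4, 6, 13)), ((20, 16, 11), (4, 10, 5)),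
   ((20, 16, 15), (1, 7, 9)), ((20, 16, 17), (1, 7, 2)), ((20, 17, 6), (4, 9, 19)),
   ((20, 17, 12), (1, 6, 8)), ((20, 17, 15), (2, 9, 6)), ((20, 17, 15), (5, 3, 1)),
   ((20, 18, 8), (5, 5, 16)), ((20, 18, 10), (4, 5, 8)), ((20, 19, 5), (6, 6, 15)),
   ((20, 19, 7), (5, 6, 10)), ((20, 19, 8), (6, 5, 7)), ((20, 19, 9), (3, 6, 12)),
   ((20, 19, 12), (4, 8, 1)), ((20, 20, 6), (4, 7, 13)), ((20, 20, 7), (6, 3, 15)),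
   ((20, 20, 9), (5, 7, 3)), ((20, 20, 11), (3, 7, 2)), ((20, 21, 4), (7, 4, 14)),
   ((20, 21, 8), (3, 4, 7)), ((20, 22, 5), (7, 4, 7)), ((20, 22, 8), (1, 5, 8)),
   ((20, 23, 5), (4, 4, 13)), ((20, 23, 7), (5, 1, 7)), ((20, 24, 4), (5, 3, 11)),
   ((20, 24, 6), (7, 1, 5)), ((20, 24, 9), (6, 2, 4)), ((20, 25, 3), (6, 2, 8)),
   ((20, 25, 3), (7, 1, 10)), ((20, 25, 7), (6, 1, 7)), ((20, 25, 8), (6, 1, 9)),
   ((21, 3, 24), (5, 13, 3)), ((21, 4, 18), (5, 19, 8)), ((21, 4, 21), (6, 10, 4)),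
   ((21, 4, 24), (4, 11, 3)), ((21, 5, 13), (6, 20, 11)), ((21, 5, 21), (3, 10, 6)),
   ((21, 5, 22), (4, 15, 4)), ((21, 6, 19), (5, 16, 5)), ((21, 6, 21), (4, 15, 4)),
   ((21, 6, 25), (2, 6, 2)), ((21, 6, 25), (6, 8, 1)), ((21, 7, 17), (6, 16, 5)),
   ((21, 7, 18), (4, 12, 6)), ((21, 7, 19), (1, 13, 8)), ((21, 7, 20), (5, 9, 3)),
   ((21, 7, 22), (6, 3, 3)), ((21, 7, 25), (3, 6, 1)), ((21, 8, 18), (6, 8, 4)),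
   ((21, 8, 19), (4, 11, 4)), ((21, 8, 22), (6, 1, 5)), ((21, 8, 23), (5, 10, 1)),
   ((21, 9, 9), (6, 12, 16)), ((21, 9, 17), (3, 10, 6)), ((21, 9, 19), (2, 5, 7)),
   ((21, 9, 20), (1, 9, 7)), ((21, 10, 16), (4, 12, 9)), ((21, 10, 21), (6, 1, 5)),
   ((21, 10, 22), (1, 2, 5)), ((21, 11, 5), (4, 15, 22)), ((21, 11, 18), (1, 9, 6)),
   ((21, 11, 18), (6, 10, 1)), ((21, 11, 21), (1, 5, 5)), ((21, 12, 14), (3, 6, 12)),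
   ((21, 12, 16), (2, 12, 5)), ((21, 12, 16), (3, 8, 4)), ((21, 12, 16), (5, 2, 7)),
   ((21, 13, 10), (4, 9, 13)), ((21, 13, 12), (4, 10, 6)), ((21, 14, 13), (4, 4, 11)),
   ((21, 14, 15), (1, 7, 7)), ((21, 14, 17), (3, 1, 6)), ((21, 15, 11), (5, 4, 14)),
   ((21, 15, 13), (1, 9, 6)), ((21, 15, 13), (5, 2, 9)), ((21, 15, 14), (2, 4, 9)),
   ((21, 15, 15), (6, 2, 3)), ((21, 16, 6), (4, 9, 13)), ((21, 16, 14), (6, 1, 9)),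
   ((21, 17, 10), (1, 10, 10)), ((21, 17, 10), (2, 6, 9)), ((21, 17, 10), (4, 4, 8)),
   ((21, 17, 13), (2, 6, 3)), ((21, 17, 15), (6, 6, 9)), ((21, 18, 11), (1, 7, 6)),
   ((21, 18, 11), (6, 6, 1)), ((21, 19, 4), (5, 8, 18)), ((21, 19, 7), (5, 4, 14)),
   ((21, 19, 8), (4, 4, 8)), ((21, 19, 10), (6, 1, 5)), ((21, 20, 7), (3, 5, 17)),
   ((21, 20, 7), (4, 4, 8)), ((21, 20, 8), (5, 4, 5)), ((21, 20, 11), (1, 6, 3)),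
   ((21, 21, 2), (6, 6, 17)), ((21, 21, 6), (5, 3, 10)), ((21, 21, 8), (4, 6, 3)),
   ((21, 21, 11), (1, 6, 6)), ((21, 22, 6), (2, 5, 8)), ((21, 22, 7), (2, 4, 10)),
   ((21, 22, 8), (1, 4, 7)), ((21, 22, 9), (1, 5, 9)), ((21, 22, 9), (6, 1, 3)),
   ((21, 22, 10), (4, 4, 1)), ((21, 23, 8), (2, 2, 8)), ((21, 24, 5), (6, 1, 9)),
   ((21, 24, 7), (1, 3, 5)), ((21, 25, 4), (6, 1, 12)), ((21, 25, 6), (6, 1, 8)),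
   ((21, 26, 5), (5, 1, 10)), ((22, 3, 21), (5, 15, 5)), ((22, 3, 25), (4, 8, 2)),
   ((22, 4, 21), (4, 15, 5)), ((22, 4, 25), (5, 3, 2)), ((22, 5, 23), (4, 7, 2)),
   ((22, 5, 24), (2, 9, 3)), ((22, 5, 25), (4, 5, 1)), ((22, 6, 18), (2, 15, 8)),
   ((22, 6, 19), (3, 10, 6)), ((22, 6, 20), (5, 13, 3)), ((22, 6, 23), (4, 10, 1)),
   ((22, 7, 20), (1, 9, 7)), ((22, 7, 22), (2, 12, 4)), ((22, 8, 14), (3, 19, 9)),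
   ((22, 8, 17), (2, 9, 7)), ((22, 8, 19), (1, 11, 8)), ((22, 9, 16), (2, 7, 11)),
   ((22, 9, 19), (5, 4, 3)), ((22, 9, 20), (4, 9, 1)), ((22, 9, 21), (4, 4, 2)),
   ((22, 10, 17), (1, 12, 10)), ((22, 10, 18), (3, 9, 3)), ((22, 10, 19), (2, 4, 5)),
   ((22, 11, 16), (1, 14, 6)), ((22, 11, 16), (3, 8, 4)), ((22, 11, 16), (4, 3, 11)),
   ((22, 11, 17), (4, 9, 2)), ((22, 11, 18), (1, 11, 5)), ((22, 11, 20), (1, 2, 6)),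
   ((22, 12, 3), (4, 15, 22)), ((22, 12, 12), (3, 7, 14)), ((22, 12, 14), (4, 13, 4)),
   ((22, 12, 15), (3, 8, 4)), ((22, 12, 17), (1, 4, 7)), ((22, 12, 19), (1, 10, 3)),
   ((22, 12, 19), (2, 11, 2)), ((22, 12, 19), (4, 5, 1)), ((22, 13, 12), (1, 8, 13)),
   ((22, 13, 14), (1, 11, 9)), ((22, 13, 17), (5, 8, 1)), ((22, 14, 10), (4, 6, 12)),
   ((22, 14, 11), (1, 13, 12)), ((22, 14, 13), (1, 9, 7)), ((22, 14, 13), (2, 5, 12)),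
   ((22, 14, 14), (2, 5, 7)), ((22, 15, 12), (2, 7, 5)), ((22, 15, 13), (1, 7, 5)),
   ((22, 15, 13), (2, 9, 11)), ((22, 16, 8), (2, 11, 17)), ((22, 16, 10), (3, 5, 11)),
   ((22, 16, 12), (5, 8, 1)), ((22, 17, 10), (5, 2, 11)), ((22, 17, 14), (3, 1, 6)),
   ((22, 18, 6), (5, 5, 10)), ((22, 18, 9), (4, 3, 9)), ((22, 18, 11), (1, 6, 6)),
   ((22, 19, 5), (5, 6, 18)), ((22, 20, 2), (5, 7, 19)), ((22, 20, 6), (3, 5, 8)),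
   ((22, 20, 6), (4, 4, 14)), ((22, 20, 10), (3, 6, 2)), ((22, 21, 7), (4, 2, 7)),
   ((22, 22, 8), (2, 4, 2)), ((22, 22, 8), (5, 1, 7)), ((22, 23, 5), (5, 3, 5)),
   ((22, 23, 6), (2, 3, 9)), ((22, 23, 7), (5, 2, 5)), ((22, 24, 7), (4, 3, 2)),
   ((22, 25, 4), (3, 2, 5)), ((22, 25, 6), (1, 2, 6)), ((22, 26, 5), (2, 1, 4)),
   ((23, 2, 26), (4, 9, 1)), ((23, 3, 21), (3, 14, 6)), ((23, 4, 18), (4, 12, 7)),
   ((23, 4, 24), (3, 10, 2)), ((23, 4, 26), (3, 3, 1)), ((23, 5, 20), (1, 15, 7)),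
   ((23, 5, 20), (3, 10, 5)), ((23, 5, 20), (4, 9, 4)), ((23, 5, 25), (4, 4, 1)),
   ((23, 6, 19), (4, 12, 4)), ((23, 6, 22), (1, 6, 4)), ((23, 6, 22), (3, 9, 2)),
   ((23, 6, 23), (1, 5, 4)), ((23, 7, 20), (1, 9, 5)), ((23, 7, 23), (3, 7, 1)),
   ((23, 8, 17), (2, 8, 6)), ((23, 8, 20), (3, 11, 2)), ((23, 8, 22), (1, 2, 5)),
   ((23, 9, 13), (1, 13, 14)), ((23, 9, 13), (3, 11, 8)), ((23, 9, 14), (2, 8, 12)),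
   ((23, 9, 18), (3, 9, 4)), ((23, 9, 19), (3, 2, 5)), ((23, 10, 13), (4, 15, 6)),
   ((23, 10, 17), (1, 7, 8)), ((23, 10, 17), (2, 8, 4)), ((23, 10, 18), (1, 11, 6)),
   ((23, 10, 20), (2, 2, 6)), ((23, 11, 17), (1, 4, 8)), ((23, 11, 19), (3, 2, 8)),
   ((23, 13, 10), (3, 9, 8)), ((23, 13, 12), (1, 8, 8)), ((23, 13, 14), (1, 6, 10)),
   ((23, 13, 14), (3, 3, 7)), ((23, 13, 15), (4, 6, 1)), ((23, 14, 11), (4, 5, 11)),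
   ((23, 14, 14), (4, 11, 1)), ((23, 15, 10), (2, 6, 14)), ((23, 15, 12), (2, 4, 7)),
   ((23, 15, 13), (2, 11, 5)), ((23, 15, 13), (4, 1, 10)), ((23, 16, 5), (4, 8, 17)),
   ((23, 17, 9), (2, 8, 6)), ((23, 17, 11), (1, 5, 9)), ((23, 18, 7), (4, 5, 7)),
   ((23, 18, 9), (2, 8, 4)), ((23, 18, 10), (3, 2, 5)), ((23, 18, 11), (3, 5, 1)),
   ((23, 19, 6), (4, 4, 11)), ((23, 19, 9), (4, 1, 7)), ((23, 20, 9), (4, 1, 5)),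
   ((23, 21, 6), (1, 6, 10)), ((23, 21, 7), (1, 4, 8)), ((23, 21, 8), (1, 6, 6)),
   ((23, 21, 9), (4, 2, 2)), ((23, 22, 3), (3, 5, 9)), ((23, 22, 7), (2, 2, 9)),
   ((23, 23, 5), (3, 2, 12)), ((23, 23, 6), (3, 1, 6)), ((23, 23, 7), (1, 4, 3)),
   ((23, 24, 4), (3, 2, 5)), ((23, 24, 4), (4, 1, 6)), ((23, 24, 5), (2, 3, 3)),
   ((23, 24, 5), (3, 2, 7)), ((23, 26, 2), (4, 1, 9)), ((23, 26, 4), (4, 1, 2)),
   ((24, 2, 24), (3, 11, 3)), ((24, 3, 23), (3, 7, 3)), ((24, 3, 26), (2, 6, 1)),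
   ((24, 4, 21), (1, 9, 6)), ((24, 4, 23), (2, 5, 3)), ((24, 4, 23), (3, 8, 2)),
   ((24, 5, 23), (1, 3, 4)), ((24, 5, 24), (3, 6, 1)), ((24, 6, 20), (2, 4, 7)),
   ((24, 7, 12), (2, 11, 14)), ((24, 7, 20), (1, 9, 4)), ((24, 7, 21), (1, 3, 6)),
   ((24, 7, 21), (2, 5, 2)), ((24, 8, 15), (1, 14, 11)), ((24, 8, 19), (3, 5, 2)),
   ((24, 8, 20), (1, 3, 5)), ((24, 9, 16), (3, 11, 4)), ((24, 9, 18), (1, 7, 4)),
   ((24, 9, 19), (1, 8, 6)), ((24, 10, 13), (2, 7, 13)), ((24, 10, 14), (1, 8, 8)),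
   ((24, 11, 11), (1, 15, 12)), ((24, 11, 15), (2, 12, 10)), ((24, 11, 15), (3, 7, 3)),
   ((24, 13, 11), (1, 7, 9)), ((24, 13, 11), (3, 8, 5)), ((24, 13, 13), (1, 10, 10)),
   ((24, 13, 13), (2, 11, 12)), ((24, 13, 14), (1, 9, 8)), ((24, 13, 15), (1, 6, 3)),
   ((24, 14, 9), (2, 7, 11)), ((24, 14, 10), (3, 5, 8)), ((24, 14, 13), (3, 5, 2)),
   ((24, 14, 14), (1, 3, 8)), ((24, 15, 8), (2, 10, 7)), ((24, 15, 9), (1, 10, 11)),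
   ((24, 15, 11), (1, 7, 7)), ((24, 16, 9), (1, 6, 12)), ((24, 16, 12), (1, 9, 4)),
   ((24, 17, 10), (2, 3, 6)), ((24, 17, 11), (1, 8, 7)), ((24, 17, 12), (3, 5, 3)),
   ((24, 18, 6), (1, 9, 7)), ((24, 19, 7), (3, 3, 7)), ((24, 19, 9), (1, 7, 7)),
   ((24, 19, 9), (2, 5, 2)), ((24, 20, 8), (1, 3, 7)), ((24, 21, 5), (3, 3, 12)),
   ((24, 22, 6), (1, 3, 7)), ((24, 22, 7), (2, 4, 9)), ((24, 23, 4), (1, 4, 12)),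
   ((24, 23, 4), (3, 2, 5)), ((24, 23, 5), (1, 4, 5)), ((24, 23, 6), (3, 1, 5)),
   ((24, 24, 3), (3, 2, 5)), ((24, 25, 2), (3, 2, 5)), ((24, 25, 4), (2, 1, 6)),
   ((24, 26, 3), (3, 1, 5)), ((25, 2, 21), (2, 10, 6)), ((25, 3, 20), (2, 13, 7)),
   ((25, 3, 25), (2, 5, 1)), ((25, 4, 12), (2, 21, 15)), ((25, 4, 19), (1, 12, 7)),
   ((25, 5, 21), (1, 6, 5)), ((25, 5, 22), (1, 3, 5)), ((25, 5, 23), (2, 5, 1)),
   ((25, 6, 18), (1, 8, 7)), ((25, 6, 22), (2, 5, 1)), ((25, 7, 18), (1, 6, 8)),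
   ((25, 7, 19), (1, 11, 4)), ((25, 7, 20), (2, 5, 2)), ((25, 7, 21), (2, 1, 6)),
   ((25, 8, 17), (1, 5, 7)), ((25, 8, 18), (1, 4, 8)), ((25, 9, 15), (2, 10, 5)),
   ((25, 9, 17), (1, 8, 8)), ((25, 9, 18), (2, 6, 8)), ((25, 10, 14), (1, 13, 10)),
   ((25, 11, 11), (1, 10, 13)), ((25, 11, 14), (1, 11, 5)), ((25, 12, 7), (1, 13, 16)),
   ((25, 12, 12), (1, 11, 7)), ((25, 12, 14), (2, 8, 3)), ((25, 13, 10), (2, 10, 13)),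
   ((25, 13, 15), (1, 7, 9)), ((25, 14, 13), (1, 7, 8)), ((25, 15, 9), (1, 6, 7)),
   ((25, 15, 10), (1, 11, 5)), ((25, 15, 11), (2, 7, 6)), ((25, 15, 12), (1, 4, 7)),
   ((25, 16, 10), (1, 9, 4)), ((25, 16, 11), (1, 4, 6)), ((25, 16, 12), (1, 6, 3)),
   ((25, 17, 9), (1, 8, 4)), ((25, 17, 11), (2, 1, 5)), ((25, 18, 7), (1, 8, 11)),
   ((25, 19, 4), (2, 8, 6)), ((25, 19, 6), (1, 6, 5)), ((25, 20, 5), (1, 5, 7)),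
   ((25, 20, 7), (2, 7, 6)), ((25, 21, 5), (1, 6, 11)), ((25, 21, 6), (2, 2, 4)),
   ((25, 22, 3), (2, 4, 6)), ((25, 22, 5), (1, 4, 3)), ((25, 22, 6), (1, 5, 7)),
   ((25, 22, 6), (2, 2, 10)), ((25, 23, 4), (1, 3, 7)), ((25, 24, 2), (2, 3, 10)),
   ((25, 24, 3), (1, 3, 5)), ((26, 2, 25), (1, 8, 2)), ((26, 3, 24), (1, 3, 3)),
   ((26, 4, 22), (1, 4, 3)), ((26, 5, 19), (1, 11, 7)), ((26, 5, 22), (1, 4, 2)),
   ((26, 6, 21), (1, 7, 5)), ((26, 7, 15), (1, 12, 10)), ((26, 7, 16), (1, 6, 8)),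
   ((26, 7, 19), (1, 7, 3)), ((26, 8, 16), (1, 10, 5)), ((26, 9, 17), (1, 3, 6)),
   ((26, 10, 15), (1, 5, 5)), ((26, 10, 16), (1, 6, 3)), ((26, 10, 17), (1, 5, 6)),
   ((26, 11, 7), (1, 16, 16)), ((26, 11, 14), (1, 11, 4)), ((26, 11, 16), (1, 4, 6)),
   ((26, 12, 11), (1, 9, 10))]

lemma data_good : (data.all fun d => decide (good 28 d.1 d.2)) = true := by decide +kernel

lemma data_nodup : chk ((data.flatMap cells4).map code) 0 = true := by decide +kernel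

lemma data_length : data.length = 1372 := by decide +kernel

end Pool.Agent.Y559.FR

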