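import Mathlib

/-!
# Finite differences on a grid

`T F l u` is the signed sum of the values of `F` over the vertices of the box `[l, u]` of the
integer grid.  The main fact is `T_sum`: the differences of the unit cells of a box add up to the
difference of the box.
-/

namespace Pool.Agent.Y559.FR

open Finset

variable {n : ℕ}

/-- The signed sum over the vertices of the box with lower corner `l` and upper corner `u`. -/
noncomputable def T (F : (Fin n → ℕ) → ℝ) (l u : Fin n → ℕ) : ℝ :=
  ∑ S : Finset (Fin n), (-1 : ℝ) ^ (n - S.card) * F (fun k => if k ∈ S then u k else l k)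

lemma prod_sub_eq (a b : Fin n → ℝ) :
    ∏ k, (a k - b k) = ∑ S : Finset (Fin n), (-1 : ℝ) ^ (n - S.card) *
      ∏ k, (if k ∈ S then a k else b k) := by
  have h := Finset.prod_add (fun k => a k) (fun k => -(b k)) (Finset.univ : Finset (Fin n))
  simp only [← sub_eq_add_neg] at h
  rw [h, Finset.powerset_univ]
  refine Finset.sum_congr rfl fun S _ => ?_
  have h1 : ∏ k, (if k ∈ S then a k else b k) =
      (∏ k ∈ S, a k) * ∏ k ∈ Finset.univ \ S, b k := by
    rw [Finset.prod_ite]
    congr 1
    · exact Finset.prod_congr (by ext; simp) fun _ _ => rfl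
    · exact Finset.prod_congr (by ext; simp) fun _ _ => rfl
  rw [h1, Finset.prod_neg, Finset.card_sdiff_of_subset (Finset.subset_univ S)]
  simp only [Finset.card_univ, Fintype.card_fin]
  ring

/-- Expansion of `T` into point masses. -/
lemma T_eq_sum (F : (Fin n → ℕ) → ℝ) (M : ℕ) (l u : Fin n → ℕ) (hl : ∀ i, l i < M)
    (hu : ∀ i, u i < M) :
    T F l u = ∑ c ∈ Fintype.piFinset (fun _ : Fin n => range M),
      F c * ∏ i, ((if u i = c i then (1 : ℝ) else 0) - (if l i = c i then (1 : ℝ) else 0)) := by
  have h1 : ∀ c : Fin n → ℕ, F c * ∏ i, ((if u i = c i then (1 : ℝ) else 0) -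
      (if l i = c i then (1 : ℝ) else 0)) = ∑ S : Finset (Fin n), (-1 : ℝ) ^ (n - S.card) *
        (if (fun k => if k ∈ S then u k else l k) = c then F c else 0) := by
    intro c
    rw [prod_sub_eq, Finset.mul_sum]
    refine Finset.sum_congr rfl fun S _ => ?_
    have : (∏ k, (if k ∈ S then (if u k = c k then (1 : ℝ) else 0) else
        (if l k = c k then (1 : ℝ) else 0))) =
        if (fun k => if k ∈ S then u k else l k) = c then 1 else 0 := by
      split_ifs with hc
      · refine Finset.prod_eq_one fun k _ => ?_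
        have hk := congrFun hc k
        by_cases hkS : k ∈ S
        · simp only [hkS, if_true] at hk ⊢
          simp [hk]
        · simp only [hkS, if_false] at hk ⊢
          simp [hk]
      · obtain ⟨k, hk⟩ := Function.ne_iff.1 hc
        refine Finset.prod_eq_zero (Finset.mem_univ k) ?_
        by_cases hkS : k ∈ S
        · simp only [hkS, if_true] at hk ⊢
          simp [hk]
        · simp only [hkS, if_false] at hk ⊢
          simp [hk]
    rw [this]
    split_ifs <;> ring
  simp only [h1]
  rw [Finset.sum_comm]
  unfold T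
  refine Finset.sum_congr rfl fun S _ => ?_
  rw [← Finset.mul_sum, Finset.sum_ite_eq]
  rw [if_pos]
  rw [Fintype.mem_piFinset]
  intro k
  by_cases hkS : k ∈ S <;> simp [hkS, hl k, hu k]

lemma sum_Ico_ind (a b c : ℕ) (hab : a ≤ b) :
    ∑ j ∈ Ico a b, ((if j + 1 = c then (1 : ℝ) else 0) - (if j = c then (1 : ℝ) else 0)) =
      (if b = c then (1 : ℝ) else 0) - (if a = c then (1 : ℝ) else 0) := by
  induction b, hab using Nat.le_induction with
  | base => simp
  | succ b hab ih =>
    rw [Finset.sum_Ico_succ_top hab, ih]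
    ring

/-- The differences of the unit cells of a box add up to the difference of the box. -/
lemma T_sum (F : (Fin n → ℕ) → ℝ) (l u : Fin n → ℕ) (h : ∀ i, l i ≤ u i) :
    ∑ b ∈ Fintype.piFinset (fun i => Ico (l i) (u i)), T F b (fun i => b i + 1) = T F l u := by
  obtain ⟨M, hM⟩ : ∃ M, ∀ i, u i < M := by
    refine ⟨∑ i, u i + 1, fun i => ?_⟩
    have := Finset.single_le_sum (f := u) (fun _ _ => Nat.zero_le _) (Finset.mem_univ i)
    omega
  have h1 : ∀ b ∈ Fintype.piFinset (fun i => Ico (l i) (u i)), T F b (fun i => b i + 1) =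
      ∑ c ∈ Fintype.piFinset (fun _ : Fin n => range M),
      F c * ∏ i, ((if b i + 1 = c i then (1 : ℝ) else 0) - (if b i = c i then (1 : ℝ) else 0)) := by
    intro b hb
    rw [Fintype.mem_piFinset] at hb
    refine T_eq_sum F M b (fun i => b i + 1) ?_ ?_
    · intro i
      have h2 := Finset.mem_Ico.1 (hb i)
      have h3 := hM i
      omega
    · intro i
      have h2 := Finset.mem_Ico.1 (hb i)
      have h3 := hM i
      show b i + 1 < M
      omega
  rw [Finset.sum_congr rfl h1, Finset.sum_comm,
    T_eq_sum F M l u (fun i => lt_of_le_of_lt (h i) (hM i)) hM]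
  refine Finset.sum_congr rfl fun c _ => ?_
  rw [← Finset.mul_sum]
  congr 1
  rw [← Finset.prod_univ_sum (fun i => Ico (l i) (u i))
    (fun i j => (if j + 1 = c i then (1 : ℝ) else 0) - (if j = c i then (1 : ℝ) else 0))]
  refine Finset.prod_congr rfl fun i _ => ?_
  exact sum_Ico_ind _ _ _ (h i)

/-- If `F` vanishes at the points with a zero coordinate then `T F 0 u = F u`. -/
lemma T_zero (F : (Fin n → ℕ) → ℝ) (hF : ∀ a : Fin n → ℕ, (∃ i, a i = 0) → F a = 0)
    (u : Fin n → ℕ) : T F (fun _ => 0) u = F u := by
  unfold T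
  rw [Finset.sum_eq_single Finset.univ]
  · simp
  · intro S _ hS
    have : ∃ k, k ∉ S := by
      by_contra hcon
      push Not at hcon
      exact hS (Finset.eq_univ_iff_forall.2 hcon)
    obtain ⟨k, hk⟩ := this
    rw [hF _ ⟨k, by simp [hk]⟩, mul_zero]
  · simp

/-- The sum of the cell differences below `u`. -/
lemma sum_cells (F : (Fin n → ℕ) → ℝ) (hF : ∀ a : Fin n → ℕ, (∃ i, a i = 0) → F a = 0)
    (u : Fin n → ℕ) :
    ∑ b ∈ Fintype.piFinset (fun i => range (u i)), T F b (fun i => b i + 1) = F u := by
  have h := T_sum F (fun _ => 0) u (fun _ => Nat.zero_le _)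
  rw [T_zero F hF] at h
  rw [← h]
  refine Finset.sum_congr ?_ fun _ _ => rfl
  congr 1
  funext i
  exact Finset.range_eq_Ico (u i)

/-- The sum of the cell differences of a slab. -/
lemma sum_slab (F : (Fin n → ℕ) → ℝ) (hF : ∀ a : Fin n → ℕ, (∃ i, a i = 0) → F a = 0)
    (N : ℕ) (i : Fin n) (j : ℕ) (hj : j < N) :
    ∑ b ∈ (Fintype.piFinset (fun _ : Fin n => range N)) with b i = j, T F b (fun i => b i + 1) =
      F (Function.update (fun _ => N) i (j + 1)) - F (Function.update (fun _ => N) i j) := by
  have h1 := sum_cells F hF (Function.update (fun _ => N) i (j + 1))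
  have h2 := sum_cells F hF (Function.update (fun _ => N) i j)
  rw [← h1, ← h2]
  have hsub : Fintype.piFinset (fun k => range (Function.update (fun _ : Fin n => N) i j k)) ⊆
      Fintype.piFinset (fun k => range (Function.update (fun _ : Fin n => N) i (j + 1) k)) := by
    apply Fintype.piFinset_subset
    intro k
    by_cases hk : k = i
    · subst hk; simp
    · simp [hk]
  rw [← Finset.sum_sdiff hsub, add_sub_cancel_right]
  refine Finset.sum_congr ?_ fun _ _ => rfl
  ext b
  simp only [Finset.mem_filter, Finset.mem_sdiff, Fintype.mem_piFinset, Finset.mem_range]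
  constructor
  · rintro ⟨hb, hbi⟩
    refine ⟨fun k => ?_, fun hcon => ?_⟩
    · by_cases hk : k = i
      · subst hk; simp [hbi]
      · simpa [hk] using hb k
    · have := hcon i
      simp [hbi] at this
  · rintro ⟨hb, hcon⟩
    have hbi : b i < j + 1 := by simpa using hb i
    have hbk : ∀ k, k ≠ i → b k < N := fun k hk => by simpa [hk] using hb k
    have hij : b i = j := by
      by_contra hne
      apply hcon
      intro k
      by_cases hk : k = i
      · subst hk
        simp only [Function.update_self]
        omega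
      · simpa [hk] using hbk k hk
    refine ⟨fun k => ?_, hij⟩
    by_cases hk : k = i
    · subst hk; omega
    · exact hbk k hk

end Pool.Agent.Y559.FR
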