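import Pool.Agent.Results.MP_2d7e0f_pr.SupAttained
import Pool.Agent.Y559.FR.Grid

/-!
# The cyclic copula
-/

open MeasureTheory Set Filter Topology
open scoped unitInterval ENNReal

namespace Pool.Agent.Y559.FR

open Pool.Agent.Results.MP_2d7e0f_pr.SupAttained

/-- The distribution function of the uniform law on `[m/n, (m+1)/n]`. -/
noncomputable def phi (n m : ℕ) (t : ℝ) : ℝ := max 0 (min 1 (n * t - m))

lemma phi_nonneg (n m : ℕ) (t : ℝ) : 0 ≤ phi n m t := le_max_left _ _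

lemma phi_le_one (n m : ℕ) (t : ℝ) : phi n m t ≤ 1 := max_le zero_le_one (min_le_left _ _)

lemma phi_mono (n m : ℕ) {s t : ℝ} (h : s ≤ t) : phi n m s ≤ phi n m t := by
  unfold phi
  have h1 : (n : ℝ) * s ≤ n * t := mul_le_mul_of_nonneg_left h (Nat.cast_nonneg n)
  exact max_le_max le_rfl (min_le_min le_rfl (by linarith))

lemma phi_zero (n m : ℕ) : phi n m 0 = 0 := by
  unfold phi
  have : (n : ℝ) * 0 - m ≤ 0 := by
    have : (0 : ℝ) ≤ m := Nat.cast_nonneg m
    linarith
  exact max_eq_left ((min_le_right _ _).trans this)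

lemma phi_one (n m : ℕ) (h : m < n) : phi n m 1 = 1 := by
  unfold phi
  have h1 : (m : ℝ) + 1 ≤ n := by exact_mod_cast h
  rw [min_eq_left (by linarith), max_eq_right zero_le_one]

lemma phi_pos (n m : ℕ) (t : ℝ) (h : phi n m t ≠ 0) : (m : ℝ) < n * t := by
  by_contra hcon
  rw [not_lt] at hcon
  apply h
  unfold phi
  exact max_eq_left ((min_le_right _ _).trans (by linarith))

lemma sum_clamp (y : ℝ) (hy : 0 ≤ y) (M : ℕ) :
    ∑ m ∈ Finset.range M, max 0 (min 1 (y - m)) = min y M := by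
  induction M with
  | zero => simp [hy]
  | succ M ih =>
    rw [Finset.sum_range_succ, ih]
    push_cast
    rcases le_total y M with h | h
    · rw [min_eq_left h, min_eq_left (show y ≤ (M : ℝ) + 1 by linarith),
        max_eq_left ((min_le_right _ _).trans (show y - (M : ℝ) ≤ 0 by linarith))]
      ring
    · rcases le_total y (M + 1) with h' | h'
      · rw [min_eq_right h, min_eq_left h', min_eq_right (show y - (M : ℝ) ≤ 1 by linarith),
          max_eq_right (show 0 ≤ y - (M : ℝ) by linarith)]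
        ring
      · rw [min_eq_right h, min_eq_right h', min_eq_left (show 1 ≤ y - (M : ℝ) by linarith),
          max_eq_right zero_le_one]

variable {n : ℕ}

/-- The real value of the cyclic copula. -/
noncomputable def cval [NeZero n] (x : Fin n → ℝ) : ℝ :=
  (1 / (n : ℝ)) * ∑ K : Fin n, ∏ i, phi n ((i + K : Fin n) : ℕ) (x i)

lemma cval_nonneg [NeZero n] (x : Fin n → ℝ) : 0 ≤ cval x := by
  unfold cval
  apply mul_nonneg (by positivity)
  exact Finset.sum_nonneg fun K _ => Finset.prod_nonneg fun i _ => phi_nonneg _ _ _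

lemma cval_le_one [NeZero n] (x : Fin n → ℝ) : cval x ≤ 1 := by
  unfold cval
  have hn : (0 : ℝ) < n := by exact_mod_cast Nat.pos_of_ne_zero (NeZero.ne n)
  have h1 : ∑ K : Fin n, ∏ i, phi n ((i + K : Fin n) : ℕ) (x i) ≤ ∑ K : Fin n, (1 : ℝ) :=
    Finset.sum_le_sum fun K _ =>
      Finset.prod_le_one (fun i _ => phi_nonneg _ _ _) (fun i _ => phi_le_one _ _ _)
  simp only [Finset.sum_const, Finset.card_univ, Fintype.card_fin, nsmul_eq_mul, mul_one] at h1
  rw [one_div, inv_mul_le_iff₀ hn]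
  linarith

/-- The cyclic copula: the law of `(i + K mod n + V_i)/n`, with `K` uniform on `Z/n` and the `V_i`
independent and uniform on `[0,1]`. -/
noncomputable def cyc [NeZero n] (x : Fin n → I) : I :=
  ⟨cval (fun i => (x i : ℝ)), cval_nonneg _, cval_le_one _⟩

lemma isCopula_cyc [NeZero n] : IsCopula (cyc : (Fin n → I) → I) where
  grounded := by
    rintro x ⟨k, hk⟩
    apply Subtype.ext
    show cval (fun i => (x i : ℝ)) = 0
    unfold cval
    rw [Finset.sum_eq_zero, mul_zero]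
    intro K _
    refine Finset.prod_eq_zero (Finset.mem_univ k) ?_
    show phi n ((k + K : Fin n) : ℕ) ((x k : I) : ℝ) = 0
    rw [hk]
    exact phi_zero _ _
  margin := by
    intro x k hx
    apply Subtype.ext
    show cval (fun i => (x i : ℝ)) = x k
    unfold cval
    have hn : (0 : ℝ) < n := by exact_mod_cast Nat.pos_of_ne_zero (NeZero.ne n)
    have h1 : ∀ K : Fin n, ∏ i, phi n ((i + K : Fin n) : ℕ) (x i) =
        phi n ((k + K : Fin n) : ℕ) (x k) := by
      intro K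
      refine Finset.prod_eq_single k (fun j _ hj => ?_) (by simp)
      rw [hx j hj]
      exact phi_one _ _ (j + K).2
    simp only [h1]
    have h2 : ∑ K : Fin n, phi n ((k + K : Fin n) : ℕ) (x k) =
        ∑ m : Fin n, phi n (m : ℕ) (x k) :=
      Equiv.sum_comp (Equiv.addLeft k) (fun m : Fin n => phi n (m : ℕ) (x k))
    rw [h2, Fin.sum_univ_eq_sum_range (fun m => phi n m (x k)) n]
    unfold phi
    have h3 : (0 : ℝ) ≤ n * (x k : ℝ) := mul_nonneg hn.le (x k).2.1
    rw [sum_clamp _ h3, min_eq_left (by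
      have := (x k).2.2
      nlinarith)]
    field_simp
  nonneg := by
    intro u v huv
    have h : boxVolume cyc u v = (1 / (n : ℝ)) * ∑ K : Fin n,
        ∏ i, (phi n ((i + K : Fin n) : ℕ) (v i) - phi n ((i + K : Fin n) : ℕ) (u i)) := by
      simp only [prod_sub_eq]
      rw [Finset.sum_comm, Finset.mul_sum]
      unfold boxVolume
      refine Finset.sum_congr rfl fun S _ => ?_
      show (-1 : ℝ) ^ (n - S.card) * cval (fun i => ((if i ∈ S then v i else u i : I) : ℝ)) = _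
      unfold cval
      rw [← Finset.mul_sum, mul_left_comm]
      congr 2
      refine Finset.sum_congr rfl fun K _ => ?_
      refine Finset.prod_congr rfl fun i _ => ?_
      by_cases hi : i ∈ S <;> simp [hi]
    rw [h]
    apply mul_nonneg (by positivity)
    refine Finset.sum_nonneg fun K _ => Finset.prod_nonneg fun i _ => ?_
    exact sub_nonneg.2 (phi_mono _ _ (huv i))

/-- The lower Frechet bound. -/
lemma W_le {C : (Fin n → I) → I} (hn : 0 < n) (hC : IsCopula C) (x : Fin n → I) : W x ≤ C x := by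
  unfold W
  refine max_le ?_ (C x).2.1
  have h1 := abs_sub_le_sum hC (fun _ => 1) x
  have h2 : C (fun _ => 1) = 1 := hC.margin (fun _ => 1) ⟨0, hn⟩ (fun _ _ => rfl)
  rw [h2] at h1
  have h3 : ∑ k, |((1 : I) : ℝ) - x k| = n - ∑ k, (x k : ℝ) := by
    have : ∀ k, |((1 : I) : ℝ) - x k| = 1 - x k := fun k => by
      rw [abs_of_nonneg]
      · simp
      · have := (x k).2.2
        simpa using this
    simp only [this, Finset.sum_sub_distrib]
    simp
  rw [h3] at h1
  have h4 := (abs_le.1 h1).2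
  have h5 : ((1 : I) : ℝ) = 1 := rfl
  rw [h5] at h4
  linarith

lemma compl_agree_subset {C : (Fin n → I) → I} (hn : 0 < n) (hC : IsCopula C) :
    (agree C)ᶜ ⊆ {x : Fin n → I | 0 < (C x : ℝ)} := by
  intro x hx
  by_contra hcon
  apply hx
  have h1 : (C x : ℝ) = 0 := le_antisymm (not_lt.1 hcon) (C x).2.1
  have h2 := W_le hn hC x
  have h3 : 0 ≤ W x := le_max_right _ _
  show (C x : ℝ) = W x
  linarith

/-- The cells of the grid `{0,...,n-1}^n` which lie above one of the `n` cyclic profiles. -/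
def cells (n : ℕ) [NeZero n] : Finset (Fin n → Fin n) :=
  Finset.univ.filter fun a => ∃ K : Fin n, ∀ i, i + K ≤ a i

lemma card_cells_le (n : ℕ) [NeZero n] : (cells n).card ≤ n * n.factorial := by
  have h1 : cells n = Finset.univ.biUnion fun K : Fin n =>
      Fintype.piFinset fun i : Fin n => Finset.Ici (i + K) := by
    ext a
    simp [cells, Fintype.mem_piFinset]
  rw [h1]
  refine Finset.card_biUnion_le.trans ?_
  have h2 : ∀ K : Fin n, (Fintype.piFinset fun i : Fin n => Finset.Ici (i + K)).card =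
      n.factorial := by
    intro K
    rw [Fintype.card_piFinset]
    simp only [Fin.card_Ici]
    have h3 : ∏ i : Fin n, (n - ((i + K : Fin n) : ℕ)) = ∏ m : Fin n, (n - (m : ℕ)) :=
      Equiv.prod_comp (Equiv.addRight K) (fun m : Fin n => n - (m : ℕ))
    rw [h3, Fin.prod_univ_eq_prod_range (fun m => n - m) n, ← Nat.descFactorial_eq_prod_range,
      Nat.descFactorial_self]
  simp [h2]

/-- The cell with index `a`. -/
def cell [NeZero n] (a : Fin n → Fin n) : Set (Fin n → I) :=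
  Set.pi univ fun i => {t : I | ((a i : ℕ) : ℝ) / n ≤ t ∧ (t : ℝ) ≤ ((a i : ℕ) + 1) / n}

lemma volume_cell [NeZero n] (a : Fin n → Fin n) :
    (volume : Measure (Fin n → I)) (cell a) = ENNReal.ofReal ((1 / (n : ℝ)) ^ n) := by
  have hn : (0 : ℝ) < n := by exact_mod_cast Nat.pos_of_ne_zero (NeZero.ne n)
  unfold cell
  rw [volume_pi_pi]
  have h1 : ∀ i, (volume : Measure I) {t : I | ((a i : ℕ) : ℝ) / n ≤ t ∧
      (t : ℝ) ≤ ((a i : ℕ) + 1) / n} = ENNReal.ofReal (1 / (n : ℝ)) := by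
    intro i
    have hi : ((a i : ℕ) : ℝ) + 1 ≤ n := by exact_mod_cast (a i).2
    have h2 : ((a i : ℕ) : ℝ) / n ≤ 1 := by rw [div_le_one hn]; linarith
    have h3 : (((a i : ℕ) : ℝ) + 1) / n ≤ 1 := by rw [div_le_one hn]; linarith
    have h4 : {t : I | ((a i : ℕ) : ℝ) / n ≤ t ∧ (t : ℝ) ≤ ((a i : ℕ) + 1) / n} =
        Icc (⟨((a i : ℕ) : ℝ) / n, by positivity, h2⟩ : I)
          ⟨(((a i : ℕ) : ℝ) + 1) / n, by positivity, h3⟩ := by
      ext t
      rfl
    rw [h4, unitInterval.volume_Icc]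
    congr 1
    show (((a i : ℕ) : ℝ) + 1) / n - ((a i : ℕ) : ℝ) / n = 1 / n
    ring
  simp only [h1, Finset.prod_const, Finset.card_univ, Fintype.card_fin]
  rw [ENNReal.ofReal_pow (by positivity)]

lemma cyc_pos_subset [NeZero n] :
    {x : Fin n → I | 0 < (cyc x : ℝ)} ⊆ ⋃ a ∈ cells n, cell a := by
  intro x hx
  have hn : (0 : ℝ) < n := by exact_mod_cast Nat.pos_of_ne_zero (NeZero.ne n)
  have h1 : ∃ K : Fin n, ∀ i, phi n ((i + K : Fin n) : ℕ) (x i) ≠ 0 := by
    by_contra hcon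
    push Not at hcon
    have : (cyc x : ℝ) = 0 := by
      show cval (fun i => (x i : ℝ)) = 0
      unfold cval
      rw [Finset.sum_eq_zero, mul_zero]
      intro K _
      obtain ⟨i, hi⟩ := hcon K
      exact Finset.prod_eq_zero (Finset.mem_univ i) hi
    have hx' : 0 < (cyc x : ℝ) := hx
    linarith
  obtain ⟨K, hK⟩ := h1
  have h2 : ∀ i, (((i + K : Fin n) : ℕ) : ℝ) < n * (x i : ℝ) := fun i => phi_pos _ _ _ (hK i)
  have h3 : ∀ i, ⌈(n : ℝ) * x i⌉₊ ≤ n := by
    intro i
    rw [Nat.ceil_le]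
    have := (x i).2.2
    nlinarith
  have h4 : ∀ i, ((i + K : Fin n) : ℕ) < ⌈(n : ℝ) * x i⌉₊ := by
    intro i
    rw [Nat.lt_ceil]
    exact h2 i
  have h0 : ∀ i, 0 < ⌈(n : ℝ) * x i⌉₊ := fun i => lt_of_le_of_lt (Nat.zero_le _) (h4 i)
  have h0' : ∀ i, ⌈(n : ℝ) * x i⌉₊ - 1 < n := fun i =>
    lt_of_lt_of_le (Nat.sub_lt (h0 i) zero_lt_one) (h3 i)
  refine mem_iUnion₂.2 ⟨fun i => ⟨⌈(n : ℝ) * x i⌉₊ - 1, h0' i⟩, ?_, ?_⟩
  · simp only [cells, Finset.mem_filter, Finset.mem_univ, true_and]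
    refine ⟨K, fun i => ?_⟩
    rw [Fin.le_def]
    show ((i + K : Fin n) : ℕ) ≤ ⌈(n : ℝ) * x i⌉₊ - 1
    exact Nat.le_sub_one_of_lt (h4 i)
  · intro i _
    have h5 := h0 i
    have h6 : ((⌈(n : ℝ) * x i⌉₊ - 1 : ℕ) : ℝ) = (⌈(n : ℝ) * x i⌉₊ : ℝ) - 1 := by
      rw [Nat.cast_sub h5]
      simp
    have h7 : (n : ℝ) * x i ≤ ⌈(n : ℝ) * x i⌉₊ := Nat.le_ceil _
    have h8 : (⌈(n : ℝ) * x i⌉₊ : ℝ) < n * x i + 1 :=
      Nat.ceil_lt_add_one (mul_nonneg hn.le (x i).2.1)
    show (((⌈(n : ℝ) * x i⌉₊ - 1 : ℕ) : ℝ)) / n ≤ x i ∧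
      (x i : ℝ) ≤ (((⌈(n : ℝ) * x i⌉₊ - 1 : ℕ) : ℝ) + 1) / n
    rw [h6]
    constructor
    · rw [div_le_iff₀ hn]
      linarith
    · rw [le_div_iff₀ hn]
      linarith

lemma volume_cyc_pos [NeZero n] :
    (volume : Measure (Fin n → I)) {x : Fin n → I | 0 < (cyc x : ℝ)} ≤
      ENNReal.ofReal ((cells n).card / (n : ℝ) ^ n) := by
  refine (measure_mono cyc_pos_subset).trans ((measure_biUnion_finset_le _ _).trans ?_)
  simp only [volume_cell, Finset.sum_const, nsmul_eq_mul]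
  rw [← ENNReal.ofReal_natCast, ← ENNReal.ofReal_mul (by positivity)]
  apply le_of_eq
  congr 1
  rw [one_div, inv_pow, div_eq_mul_inv]

end Pool.Agent.Y559.FR
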