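import Pool.Agent.Y559.FR.Three

/-!
# The volume of the regions of disagreement
-/

open MeasureTheory Set Filter Topology
open scoped unitInterval ENNReal

namespace Pool.Agent.Y559.FR

open Pool.Agent.Results.MP_2d7e0f_pr.SupAttained

lemma volume_interval_le (α β : ℝ) :
    (volume : Measure I) {s : I | α ≤ (s : ℝ) ∧ (s : ℝ) ≤ β} ≤ ENNReal.ofReal (β - α) := by
  rw [unitInterval.volume_apply, ← Real.volume_Icc]
  apply measure_mono
  rintro _ ⟨s, hs, rfl⟩
  exact hs

/-- The area of a rectangle in the square. -/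
lemma box2 (i j : Fin 2) (hij : i ≠ j) (α β α' β' : ℝ) :
    (volume : Measure (Fin 2 → I))
      {y : Fin 2 → I | (α ≤ (y i : ℝ) ∧ (y i : ℝ) ≤ β) ∧ (α' ≤ (y j : ℝ) ∧ (y j : ℝ) ≤ β')} ≤
      ENNReal.ofReal (β - α) * ENNReal.ofReal (β' - α') := by
  have h : {y : Fin 2 → I | (α ≤ (y i : ℝ) ∧ (y i : ℝ) ≤ β) ∧
      (α' ≤ (y j : ℝ) ∧ (y j : ℝ) ≤ β')} =
      Set.pi univ (fun k : Fin 2 => if k = i then {s : I | α ≤ (s : ℝ) ∧ (s : ℝ) ≤ β}
        else {s : I | α' ≤ (s : ℝ) ∧ (s : ℝ) ≤ β'}) := by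
    ext y
    simp only [Set.mem_pi, mem_univ, forall_true_left]
    constructor
    · rintro ⟨h1, h2⟩ k
      by_cases hk : k = i
      · rw [if_pos hk, hk]; exact h1
      · have hk'' : ∀ i j k : Fin 2, i ≠ j → k ≠ i → k = j := by decide
        have hk' : k = j := hk'' i j k hij hk
        rw [if_neg hk, hk']; exact h2
    · intro h
      have h1 := h i
      have h2 := h j
      rw [if_pos rfl] at h1
      rw [if_neg hij.symm] at h2
      exact ⟨h1, h2⟩
  rw [h, volume_pi_pi, Fin.prod_univ_two]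
  have h1 := volume_interval_le α β
  have h2 := volume_interval_le α' β'
  have h3' : ∀ i j : Fin 2, i ≠ j → (i = 0 ∧ j = 1) ∨ (i = 1 ∧ j = 0) := by decide
  have h3 := h3' i j hij
  rcases h3 with ⟨rfl, rfl⟩ | ⟨rfl, rfl⟩
  · simp only [if_true, if_neg (show ¬ ((1 : Fin 2) = 0) by decide)]
    exact mul_le_mul' h1 h2
  · simp only [if_true, if_neg (show ¬ ((0 : Fin 2) = 1) by decide)]
    rw [mul_comm]
    exact mul_le_mul' h1 h2

/-- The area of the section of the region. -/
noncomputable def area (t : ℝ) : ℝ := (t - 2 / 3) ^ 2 + 2 / 3 * (t - 2 / 3) + (1 - t) / 3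

lemma section_le (i j : Fin 2) (hij : i ≠ j) (t : ℝ) (ht : 2 / 3 ≤ t) (ht1 : t ≤ 1) :
    (volume : Measure (Fin 2 → I))
      {y : Fin 2 → I | Reg (3 * (y i : ℝ)) (3 * (y j : ℝ)) (3 * t)} ≤
      ENNReal.ofReal (area t) := by
  have hsub : {y : Fin 2 → I | Reg (3 * (y i : ℝ)) (3 * (y j : ℝ)) (3 * t)} ⊆
      ({y : Fin 2 → I | (1 - t ≤ (y i : ℝ) ∧ (y i : ℝ) ≤ 1 / 3) ∧
        (4 / 3 - t ≤ (y j : ℝ) ∧ (y j : ℝ) ≤ 2 / 3)} ∪
      {y : Fin 2 → I | (1 / 3 ≤ (y i : ℝ) ∧ (y i : ℝ) ≤ 2 / 3) ∧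
        (4 / 3 - t ≤ (y j : ℝ) ∧ (y j : ℝ) ≤ 2 / 3)}) ∪
      ({y : Fin 2 → I | (1 - t ≤ (y i : ℝ) ∧ (y i : ℝ) ≤ 1 / 3) ∧
        (2 / 3 ≤ (y j : ℝ) ∧ (y j : ℝ) ≤ 1)} ∪
      {y : Fin 2 → I | (2 / 3 ≤ (y i : ℝ) ∧ (y i : ℝ) ≤ 1) ∧
        (1 / 3 ≤ (y j : ℝ) ∧ (y j : ℝ) ≤ 4 / 3 - t)}) := by
    intro y hy
    have hi := (y i).2.2
    have hj := (y j).2.2
    obtain ⟨_, h | h | h | h⟩ := hy
    · left; left
      exact ⟨⟨by linarith [h.1], by linarith [h.2.1]⟩, by linarith [h.2.2.1], by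
        linarith [h.2.2.2]⟩
    · left; right
      exact ⟨⟨by linarith [h.1], by linarith [h.2.1]⟩, by linarith [h.2.2.1], by
        linarith [h.2.2.2]⟩
    · right; left
      exact ⟨⟨by linarith [h.1], by linarith [h.2.1]⟩, by linarith [h.2.2], hj⟩
    · right; right
      exact ⟨⟨by linarith [h.1], hi⟩, by linarith [h.2.1], by linarith [h.2.2]⟩
  refine (measure_mono hsub).trans ((measure_union_le _ _).trans ?_)
  refine (add_le_add (measure_union_le _ _) (measure_union_le _ _)).trans ?_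
  refine (add_le_add (add_le_add (box2 i j hij _ _ _ _) (box2 i j hij _ _ _ _))
    (add_le_add (box2 i j hij _ _ _ _) (box2 i j hij _ _ _ _))).trans ?_
  have hδ : (0 : ℝ) ≤ t - 2 / 3 := by linarith
  have hδ' : (0 : ℝ) ≤ 1 - t := by linarith
  rw [show (1 : ℝ) / 3 - (1 - t) = t - 2 / 3 by ring,
    show (2 : ℝ) / 3 - (4 / 3 - t) = t - 2 / 3 by ring,
    show (4 : ℝ) / 3 - t - 1 / 3 = 1 - t by ring,
    show (2 : ℝ) / 3 - 1 / 3 = 1 / 3 by norm_num,
    show (1 : ℝ) - 2 / 3 = 1 / 3 by norm_num]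
  rw [← ENNReal.ofReal_mul hδ, ← ENNReal.ofReal_mul (by norm_num), ← ENNReal.ofReal_mul hδ,
    ← ENNReal.ofReal_mul (by norm_num), ← ENNReal.ofReal_add (by positivity) (by positivity),
    ← ENNReal.ofReal_add (by positivity) (by positivity),
    ← ENNReal.ofReal_add (by positivity) (by positivity)]
  apply ENNReal.ofReal_le_ofReal
  unfold area
  apply le_of_eq
  ring

lemma integral_area : ∫ t in (2 / 3 : ℝ)..1, area t = 11 / 162 := by
  have h : ∀ t : ℝ, HasDerivAt (fun t : ℝ => (t - 2 / 3) ^ 3 / 3 + 1 / 3 * (t - 2 / 3) ^ 2 -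
      (1 - t) ^ 2 / 6) (area t) t := by
    intro t
    have h1 : HasDerivAt (fun t : ℝ => t - 2 / 3) 1 t := (hasDerivAt_id t).sub_const _
    have h2 : HasDerivAt (fun t : ℝ => 1 - t) (-1) t := (hasDerivAt_id t).const_sub _
    have h3 := (((h1.pow 3).div_const 3).add ((h1.pow 2).const_mul (1 / 3))).sub
      ((h2.pow 2).div_const 6)
    refine h3.congr_deriv ?_
    unfold area
    push_cast
    ring
  rw [intervalIntegral.integral_eq_sub_of_hasDerivAt (fun t _ => h t)
    (Continuous.intervalIntegrable (by unfold area; fun_prop) _ _)]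
  norm_num

lemma lintegral_area :
    ∫⁻ t : I, (if 2 / 3 ≤ (t : ℝ) then ENNReal.ofReal (area (t : ℝ)) else 0) =
      ENNReal.ofReal (11 / 162) := by
  have hm : Measurable (fun t : ℝ => if 2 / 3 ≤ t then ENNReal.ofReal (area t) else 0) := by
    refine Measurable.ite measurableSet_Ici ?_ measurable_const
    unfold area
    fun_prop
  have h1 := unitInterval.measurePreserving_coe.lintegral_comp hm
  rw [h1]
  have h2 : (fun t : ℝ => if 2 / 3 ≤ t then ENNReal.ofReal (area t) else 0) =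
      (Ici (2 / 3 : ℝ)).indicator (fun t => ENNReal.ofReal (area t)) := by
    funext t
    simp [indicator_apply]
  rw [h2, lintegral_indicator measurableSet_Ici, Measure.restrict_restrict measurableSet_Ici]
  have h3 : Ici (2 / 3 : ℝ) ∩ I = Icc (2 / 3) 1 := by
    ext t
    simp only [mem_inter_iff, mem_Ici, mem_Icc]
    constructor
    · rintro ⟨h1, _, h2⟩; exact ⟨h1, h2⟩
    · rintro ⟨h1, h2⟩; exact ⟨h1, by linarith, h2⟩
  rw [h3, ← ofReal_integral_eq_lintegral_ofReal, integral_Icc_eq_integral_Ioc,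
    ← intervalIntegral.integral_of_le (by norm_num), integral_area]
  · have : Continuous area := by unfold area; fun_prop
    exact this.integrableOn_Icc
  · refine (ae_restrict_mem measurableSet_Icc).mono fun t ht => ?_
    unfold area
    have h4 := ht.1
    have h5 := ht.2
    have : 0 ≤ t - 2 / 3 := by linarith
    have : 0 ≤ 1 - t := by linarith
    show (0 : ℝ) ≤ _
    positivity

lemma measurable_reg {α : Type*} [MeasurableSpace α] {f g h : α → ℝ} (hf : Measurable f)
    (hg : Measurable g) (hh : Measurable h) : MeasurableSet {a | Reg (f a) (g a) (h a)} := by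
  unfold Reg
  refine (measurableSet_le measurable_const hh).inter (MeasurableSet.union ?_
    (MeasurableSet.union ?_ (MeasurableSet.union ?_ ?_)))
  · exact (measurableSet_le (measurable_const.sub hh) hf).inter
      ((measurableSet_le hf measurable_const).inter
      ((measurableSet_le (measurable_const.sub hh) hg).inter
      (measurableSet_le hg measurable_const)))
  · exact (measurableSet_le measurable_const hf).inter
      ((measurableSet_le hf measurable_const).inter
      ((measurableSet_le (measurable_const.sub hh) hg).inter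
      (measurableSet_le hg measurable_const)))
  · exact (measurableSet_le (measurable_const.sub hh) hf).inter
      ((measurableSet_le hf measurable_const).inter (measurableSet_le measurable_const hg))
  · exact (measurableSet_le measurable_const hf).inter
      ((measurableSet_le measurable_const hg).inter
      (measurableSet_le hg (measurable_const.sub hh)))

lemma volume_reg_prod (i j : Fin 2) (hij : i ≠ j) :
    (volume : Measure (I × (Fin 2 → I)))
      {p | Reg (3 * (p.2 i : ℝ)) (3 * (p.2 j : ℝ)) (3 * (p.1 : ℝ))} ≤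
      ENNReal.ofReal (11 / 162) := by
  have hm : MeasurableSet {p : I × (Fin 2 → I) |
      Reg (3 * (p.2 i : ℝ)) (3 * (p.2 j : ℝ)) (3 * (p.1 : ℝ))} := by
    refine measurable_reg ?_ ?_ ?_ <;> fun_prop
  rw [Measure.volume_eq_prod, Measure.prod_apply hm, ← lintegral_area]
  refine lintegral_mono fun t => ?_
  show (volume : Measure (Fin 2 → I))
      {y : Fin 2 → I | Reg (3 * (y i : ℝ)) (3 * (y j : ℝ)) (3 * (t : ℝ))} ≤ _
  split_ifs with ht
  · exact section_le i j hij t ht t.2.2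
  · have : {y : Fin 2 → I | Reg (3 * (y i : ℝ)) (3 * (y j : ℝ)) (3 * (t : ℝ))} = ∅ := by
      ext y
      simp only [mem_ofPred_eq, mem_empty_iff_false, iff_false]
      intro h
      apply ht
      have := h.1
      linarith
    rw [this, measure_empty]

lemma volume_reg (c : Fin 3) :
    (volume : Measure (Fin 3 → I))
      {x | Reg (3 * (x (c + 1) : ℝ)) (3 * (x (c + 2) : ℝ)) (3 * (x c : ℝ))} ≤
      ENNReal.ofReal (11 / 162) := by
  have hmp := volume_preserving_piFinSuccAbove (fun _ : Fin 3 => I) c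
  have hs : ∀ c : Fin 3, ∃ i j : Fin 2, i ≠ j ∧ c.succAbove i = c + 1 ∧
      c.succAbove j = c + 2 := by decide
  obtain ⟨i, j, hij, hi, hj⟩ := hs c
  have hm : MeasurableSet {p : I × (Fin 2 → I) |
      Reg (3 * (p.2 i : ℝ)) (3 * (p.2 j : ℝ)) (3 * (p.1 : ℝ))} := by
    refine measurable_reg ?_ ?_ ?_ <;> fun_prop
  have h := hmp.measure_preimage hm.nullMeasurableSet
  have h2 : (MeasurableEquiv.piFinSuccAbove (fun _ : Fin 3 => I) c) ⁻¹' {p : I × (Fin 2 → I) |
      Reg (3 * (p.2 i : ℝ)) (3 * (p.2 j : ℝ)) (3 * (p.1 : ℝ))} =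
      {x : Fin 3 → I | Reg (3 * (x (c + 1) : ℝ)) (3 * (x (c + 2) : ℝ)) (3 * (x c : ℝ))} := by
    ext x
    rw [← hi, ← hj]
    rfl
  rw [← h2, h]
  exact volume_reg_prod i j hij

theorem volume_three_ne :
    (volume : Measure (Fin 3 → I)) {x | (three x : ℝ) ≠ W x} ≤ ENNReal.ofReal (11 / 54) := by
  have hsub : {x : Fin 3 → I | (three x : ℝ) ≠ W x} ⊆ ⋃ c : Fin 3,
      {x | Reg (3 * (x (c + 1) : ℝ)) (3 * (x (c + 2) : ℝ)) (3 * (x c : ℝ))} := by
    intro x hx
    exact mem_iUnion.2 (three_ne x hx)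
  refine (measure_mono hsub).trans ((measure_iUnion_fintype_le _ _).trans ?_)
  refine (Finset.sum_le_sum fun c _ => volume_reg c).trans ?_
  rw [Finset.sum_const, Finset.card_univ, Fintype.card_fin, nsmul_eq_mul,
    ← ENNReal.ofReal_natCast, ← ENNReal.ofReal_mul (by positivity)]
  apply ENNReal.ofReal_le_ofReal
  norm_num

theorem s_three_ge : (43 : ℝ) / 54 ≤ (s 3).toReal := by
  have h1 : (volume : Measure (Fin 3 → I)) (agree three) ≤ s 3 := by
    rw [s_eq]
    exact le_iSup₂ (f := fun C (_ : C ∈ {C : (Fin 3 → I) → I | IsCopula C}) =>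
      (volume : Measure (Fin 3 → I)) (agree C)) three isCopula_three
  have h2 : (1 : ℝ≥0∞) ≤ s 3 + ENNReal.ofReal (11 / 54) := by
    have h3 : (1 : ℝ≥0∞) =
        (volume : Measure (Fin 3 → I)) (agree three ∪ {x | (three x : ℝ) ≠ W x}) := by
      have : agree three ∪ {x | (three x : ℝ) ≠ W x} = univ := by
        ext x
        simp only [agree, mem_union, mem_ofPred_eq, mem_univ, iff_true]
        exact em _
      rw [this, measure_univ]
    rw [h3]
    exact (measure_union_le _ _).trans (add_le_add h1 volume_three_ne)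
  have hs1 : s 3 ≤ 1 := by
    rw [s_eq]
    exact iSup₂_le fun C _ => prob_le_one
  have hs : s 3 ≠ ∞ := ne_top_of_le_ne_top ENNReal.one_ne_top hs1
  have h4 := ENNReal.toReal_mono (ENNReal.add_ne_top.2 ⟨hs, ENNReal.ofReal_ne_top⟩) h2
  rw [ENNReal.toReal_add hs ENNReal.ofReal_ne_top, ENNReal.toReal_ofReal (by norm_num),
    ENNReal.toReal_one] at h4
  linarith

end Pool.Agent.Y559.FR
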