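import Pool.Agent.Y559.FR.Cyc
import Pool.Agent.Y559.FR.Vol3

/-!
# Small dimensions
-/

open MeasureTheory Set Filter Topology
open scoped unitInterval ENNReal

namespace Pool.Agent.Y559.FR

open Pool.Agent.Results.MP_2d7e0f_pr.SupAttained

lemma s_ge_cells (n : ℕ) [NeZero n] :
    1 - (s n).toReal ≤ (cells n).card / (n : ℝ) ^ n := by
  have hn : 0 < n := Nat.pos_of_ne_zero (NeZero.ne n)
  have h1 : (volume : Measure (Fin n → I)) (agree cyc) ≤ s n := by
    rw [s_eq]
    exact le_iSup₂ (f := fun C (_ : C ∈ {C : (Fin n → I) → I | IsCopula C}) =>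
      (volume : Measure (Fin n → I)) (agree C)) cyc isCopula_cyc
  have h : (1 : ℝ≥0∞) ≤ s n + ENNReal.ofReal ((cells n).card / (n : ℝ) ^ n) := by
    have h2 : (1 : ℝ≥0∞) = (volume : Measure (Fin n → I)) (agree cyc ∪ (agree cyc)ᶜ) := by
      rw [union_compl_self, measure_univ]
    rw [h2]
    refine (measure_union_le _ _).trans (add_le_add h1 ?_)
    exact (measure_mono (compl_agree_subset hn isCopula_cyc)).trans volume_cyc_pos
  have hs1 : s n ≤ 1 := by
    rw [s_eq]
    exact iSup₂_le fun C _ => prob_le_one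
  have hs : s n ≠ ∞ := ne_top_of_le_ne_top ENNReal.one_ne_top hs1
  have h1 := ENNReal.toReal_mono (ENNReal.add_ne_top.2 ⟨hs, ENNReal.ofReal_ne_top⟩) h
  rw [ENNReal.toReal_add hs ENNReal.ofReal_ne_top, ENNReal.toReal_ofReal (by positivity),
    ENNReal.toReal_one] at h1
  linarith

lemma s_four : (185 : ℝ) / 256 ≤ (s 4).toReal := by
  have h := s_ge_cells 4
  have h1 : (cells 4).card = 71 := by decide +kernel
  rw [h1] at h
  norm_num at h
  linarith

lemma s_five : (2664 : ℝ) / 3125 ≤ (s 5).toReal := by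
  have h := s_ge_cells 5
  have h1 : (cells 5).card = 461 := by decide +kernel
  rw [h1] at h
  norm_num at h
  linarith

end Pool.Agent.Y559.FR
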