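import Pool.Agent.Y559.FR.Grid
import Pool.Agent.Results.MP_2d7e0f_pr.SupAttained

/-!
# A 3-copula which agrees with the lower Frechet bound on a set of measure `43/54`
-/

open MeasureTheory Set Filter Topology
open scoped unitInterval ENNReal

namespace Pool.Agent.Y559.FR

open Pool.Agent.Results.MP_2d7e0f_pr.SupAttained

/-- The signed sum of the measures of the intersections is nonnegative. -/
lemma law_nonneg {Ω : Type*} [MeasurableSpace Ω] (μ : Measure Ω) [IsFiniteMeasure μ] {n : ℕ}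
    (A B : Fin n → Set Ω) (hA : ∀ i, MeasurableSet (A i)) (hB : ∀ i, MeasurableSet (B i))
    (h : ∀ i, B i ⊆ A i) :
    0 ≤ ∑ S : Finset (Fin n), (-1 : ℝ) ^ (n - S.card) *
      μ.real (⋂ i, if i ∈ S then A i else B i) := by
  classical
  have hm : ∀ S : Finset (Fin n), MeasurableSet (⋂ i, if i ∈ S then A i else B i) := by
    intro S
    refine MeasurableSet.iInter fun i => ?_
    split_ifs
    · exact hA i
    · exact hB i
  have h1 : ∀ S : Finset (Fin n), μ.real (⋂ i, if i ∈ S then A i else B i) =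
      ∫ ω, (⋂ i, if i ∈ S then A i else B i).indicator (1 : Ω → ℝ) ω ∂μ :=
    fun S => (integral_indicator_one (hm S)).symm
  simp only [h1, ← integral_const_mul]
  rw [← integral_finsetSum]
  · refine integral_nonneg fun ω => ?_
    have h2 : ∑ S : Finset (Fin n), (-1 : ℝ) ^ (n - S.card) *
        (⋂ i, if i ∈ S then A i else B i).indicator (1 : Ω → ℝ) ω =
        ∏ i, ((A i).indicator (1 : Ω → ℝ) ω - (B i).indicator (1 : Ω → ℝ) ω) := by
      rw [prod_sub_eq]
      refine Finset.sum_congr rfl fun S _ => ?_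
      congr 1
      by_cases hω : ω ∈ ⋂ i, if i ∈ S then A i else B i
      · rw [indicator_of_mem hω]
        symm
        refine Finset.prod_eq_one fun i _ => ?_
        have hi := mem_iInter.1 hω i
        by_cases hiS : i ∈ S
        · simp only [hiS, if_true] at hi ⊢
          rw [indicator_of_mem hi]; rfl
        · simp only [hiS, if_false] at hi ⊢
          rw [indicator_of_mem hi]; rfl
      · rw [indicator_of_notMem hω]
        symm
        rw [mem_iInter] at hω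
        push Not at hω
        obtain ⟨i, hi⟩ := hω
        refine Finset.prod_eq_zero (Finset.mem_univ i) ?_
        by_cases hiS : i ∈ S
        · simp only [hiS, if_true] at hi ⊢
          exact indicator_of_notMem hi _
        · simp only [hiS, if_false] at hi ⊢
          exact indicator_of_notMem hi _
    show 0 ≤ ∑ S : Finset (Fin n), (-1 : ℝ) ^ (n - S.card) *
        (⋂ i, if i ∈ S then A i else B i).indicator (1 : Ω → ℝ) ω
    rw [h2]
    refine Finset.prod_nonneg fun i _ => sub_nonneg.2 ?_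
    exact indicator_le_indicator_of_subset (h i) (fun _ => zero_le_one) ω
  · intro S _
    exact (((integrable_const (1 : ℝ)).indicator (hm S)).const_mul _)

/-- clamp -/
noncomputable def cl (t : ℝ) : ℝ := max 0 (min 1 t)

lemma cl_nonneg (t : ℝ) : 0 ≤ cl t := le_max_left _ _
lemma cl_le_one (t : ℝ) : cl t ≤ 1 := max_le zero_le_one (min_le_left _ _)
lemma cl_mono {s t : ℝ} (h : s ≤ t) : cl s ≤ cl t := max_le_max le_rfl (min_le_min le_rfl h)

lemma cl_cases (X : ℝ) (h0 : 0 ≤ X) (h3 : X ≤ 3) :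
    (X ≤ 1 ∧ cl X = X ∧ cl (X - 1) = 0 ∧ cl (X - 2) = 0) ∨
    (1 ≤ X ∧ X ≤ 2 ∧ cl X = 1 ∧ cl (X - 1) = X - 1 ∧ cl (X - 2) = 0) ∨
    (2 ≤ X ∧ cl X = 1 ∧ cl (X - 1) = 1 ∧ cl (X - 2) = X - 2) := by
  have e0 : ∀ t : ℝ, t ≤ 0 → cl t = 0 := fun t ht => by
    unfold cl; exact max_eq_left ((min_le_right _ _).trans ht)
  have e1 : ∀ t : ℝ, 1 ≤ t → cl t = 1 := fun t ht => by
    unfold cl; rw [min_eq_left ht, max_eq_right zero_le_one]
  have em : ∀ t : ℝ, 0 ≤ t → t ≤ 1 → cl t = t := fun t ht ht' => by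
    unfold cl; rw [min_eq_right ht', max_eq_right ht]
  rcases le_total X 1 with h | h
  · left
    exact ⟨h, em _ h0 h, e0 _ (by linarith), e0 _ (by linarith)⟩
  · rcases le_total X 2 with h' | h'
    · right; left
      exact ⟨h, h', e1 _ h, em _ (by linarith) (by linarith), e0 _ (by linarith)⟩
    · right; right
      exact ⟨h', e1 _ (by linarith), e1 _ (by linarith), em _ (by linarith) (by linarith)⟩

/-- The region of disagreement with top coordinate `c`. -/
def Reg (a b c : ℝ) : Prop :=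
  2 ≤ c ∧ ((3 - c ≤ a ∧ a ≤ 1 ∧ 4 - c ≤ b ∧ b ≤ 2) ∨ (1 ≤ a ∧ a ≤ 2 ∧ 4 - c ≤ b ∧ b ≤ 2) ∨
    (3 - c ≤ a ∧ a ≤ 1 ∧ 2 ≤ b) ∨ (2 ≤ a ∧ 1 ≤ b ∧ b ≤ 4 - c))

/-- One of the three terms of the copula. -/
noncomputable def tm (a b c : ℝ) : ℝ := max 0 (min (cl a) (cl (b - 1)) + cl (c - 2) - 1)

lemma key (X Y Z : ℝ) (hX : 0 ≤ X) (hX3 : X ≤ 3) (hY : 0 ≤ Y) (hY3 : Y ≤ 3) (hZ : 0 ≤ Z)
    (hZ3 : Z ≤ 3) :
    tm Y Z X + tm Z X Y + tm X Y Z = max (X + Y + Z - 6) 0 ∨
    Reg X Y Z ∨ Reg Z X Y ∨ Reg Y Z X := by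
  unfold Reg tm
  rcases cl_cases X hX hX3 with ⟨x1, x2, x3, x4⟩ | ⟨x0, x1, x2, x3, x4⟩ | ⟨x1, x2, x3, x4⟩ <;>
  rcases cl_cases Y hY hY3 with ⟨y1, y2, y3, y4⟩ | ⟨y0, y1, y2, y3, y4⟩ | ⟨y1, y2, y3, y4⟩ <;>
  rcases cl_cases Z hZ hZ3 with ⟨z1, z2, z3, z4⟩ | ⟨z0, z1, z2, z3, z4⟩ | ⟨z1, z2, z3, z4⟩ <;>
  simp only [x2, x3, x4, y2, y3, y4, z2, z3, z4] <;>
  grind

lemma tm_zero (a b c : ℝ) (h : a = 0 ∨ b = 0 ∨ c = 0) : tm a b c = 0 := by
  have e0 : ∀ t : ℝ, t ≤ 0 → cl t = 0 := fun t ht => by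
    unfold cl; exact max_eq_left ((min_le_right _ _).trans ht)
  have h1 := cl_le_one a
  have h2 := cl_le_one (b - 1)
  have h3 := cl_le_one (c - 2)
  unfold tm
  apply max_eq_left
  rcases h with h | h | h
  · have : cl a = 0 := e0 _ h.le
    have := min_le_left (cl a) (cl (b - 1))
    linarith
  · have : cl (b - 1) = 0 := e0 _ (by linarith)
    have := min_le_right (cl a) (cl (b - 1))
    linarith
  · have : cl (c - 2) = 0 := e0 _ (by linarith)
    have := min_le_left (cl a) (cl (b - 1))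
    linarith

lemma tm_margin (X : ℝ) (hX : 0 ≤ X) (hX3 : X ≤ 3) :
    tm 3 3 X + tm 3 X 3 + tm X 3 3 = X := by
  have c3 := cl_cases 3 (by norm_num) (by norm_num)
  unfold tm
  rcases cl_cases X hX hX3 with ⟨x1, x2, x3, x4⟩ | ⟨x0, x1, x2, x3, x4⟩ | ⟨x1, x2, x3, x4⟩ <;>
  simp only [x2, x3, x4] <;>
  grind

/-- Lebesgue measure on the unit interval. -/
noncomputable def mu : Measure ℝ := (volume : Measure ℝ).restrict (Icc (0 : ℝ) 1)

instance : IsProbabilityMeasure mu := ⟨by simp [mu]⟩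

lemma mu_real (a b c : ℝ) (ha' : a ≤ 1) (hc' : c ≤ 1) : mu.real (Iic a ∩ Iic b ∩ Ici (1 - c)) = max 0 (min a b + c - 1) := by
  have h1 : mu (Iic a ∩ Iic b ∩ Ici (1 - c)) = ENNReal.ofReal (min a b - (1 - c)) := by
    unfold mu
    rw [Measure.restrict_apply (by measurability)]
    have : Iic a ∩ Iic b ∩ Ici (1 - c) ∩ Icc 0 1 = Icc (1 - c) (min a b) := by
      ext v
      simp only [mem_inter_iff, mem_Iic, mem_Ici, mem_Icc, le_min_iff]
      constructor
      · rintro ⟨⟨⟨h1, h2⟩, h3⟩, _, _⟩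
        exact ⟨h3, h1, h2⟩
      · rintro ⟨h3, h1, h2⟩
        exact ⟨⟨⟨h1, h2⟩, h3⟩, by linarith, by linarith⟩
    rw [this, Real.volume_Icc]
  rw [Measure.real, h1, ENNReal.toReal_ofReal', max_comm]
  congr 1
  ring

/-- The set of the parameters `v` for which coordinate `i` of the `c`-th random vector is at most
`t/3`. -/
def E (c i : Fin 3) (t : ℝ) : Set ℝ :=
  if i = c then Ici (1 - cl (t - 2)) else if i = c + 1 then Iic (cl t) else Iic (cl (t - 1))

lemma measurable_E (c i : Fin 3) (t : ℝ) : MeasurableSet (E c i t) := by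
  unfold E
  split_ifs
  · exact measurableSet_Ici
  · exact measurableSet_Iic
  · exact measurableSet_Iic

lemma E_mono (c i : Fin 3) {s t : ℝ} (h : s ≤ t) : E c i s ⊆ E c i t := by
  unfold E
  split_ifs
  · have := cl_mono (show s - 2 ≤ t - 2 by linarith)
    exact Ici_subset_Ici.2 (by linarith)
  · exact Iic_subset_Iic.2 (cl_mono h)
  · exact Iic_subset_Iic.2 (cl_mono (by linarith))

lemma mu_E (c : Fin 3) (x : Fin 3 → ℝ) :
    mu.real (⋂ i, E c i (x i)) = tm (x (c + 1)) (x (c + 2)) (x c) := by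
  have d1 : ∀ c : Fin 3, ¬ (c + 1 = c) := by decide
  have d2 : ∀ c : Fin 3, ¬ (c + 2 = c) := by decide
  have d3 : ∀ c : Fin 3, ¬ (c + 2 = c + 1) := by decide
  have d4 : ∀ c i : Fin 3, ¬ (i = c) → ¬ (i = c + 1) → i = c + 2 := by decide
  have h : (⋂ i, E c i (x i)) =
      Iic (cl (x (c + 1))) ∩ Iic (cl (x (c + 2) - 1)) ∩ Ici (1 - cl (x c - 2)) := by
    ext v
    simp only [mem_iInter, mem_inter_iff, mem_Iic, mem_Ici]
    constructor
    · intro h
      refine ⟨⟨?_, ?_⟩, ?_⟩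
      · have h1 := h (c + 1)
        unfold E at h1
        rw [if_neg (d1 c), if_pos rfl] at h1
        exact h1
      · have h1 := h (c + 2)
        unfold E at h1
        rw [if_neg (d2 c), if_neg (d3 c)] at h1
        exact h1
      · have h1 := h c
        unfold E at h1
        rw [if_pos rfl] at h1
        exact h1
    · rintro ⟨⟨h1, h2⟩, h3⟩ i
      unfold E
      split_ifs with hi hi'
      · rw [hi]; exact h3
      · rw [hi']; exact h1
      · rw [d4 c i hi hi']; exact h2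
  rw [h, mu_real _ _ _ (cl_le_one _) (cl_le_one _)]
  rfl

/-- The real value of the copula. -/
noncomputable def val3 (x : Fin 3 → ℝ) : ℝ :=
  (1 / 3) * ∑ c : Fin 3, mu.real (⋂ i, E c i (3 * x i))

lemma val3_eq (x : Fin 3 → ℝ) : val3 x = (1 / 3) * (tm (3 * x 1) (3 * x 2) (3 * x 0) +
    tm (3 * x 2) (3 * x 0) (3 * x 1) + tm (3 * x 0) (3 * x 1) (3 * x 2)) := by
  unfold val3
  rw [Fin.sum_univ_three]
  rw [mu_E 0 (fun i => 3 * x i), mu_E 1 (fun i => 3 * x i), mu_E 2 (fun i => 3 * x i)]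
  rfl

lemma val3_nonneg (x : Fin 3 → ℝ) : 0 ≤ val3 x := by
  unfold val3
  exact mul_nonneg (by norm_num) (Finset.sum_nonneg fun _ _ => measureReal_nonneg)

lemma val3_le_one (x : Fin 3 → ℝ) : val3 x ≤ 1 := by
  unfold val3
  have : ∑ c : Fin 3, mu.real (⋂ i, E c i (3 * x i)) ≤ ∑ c : Fin 3, (1 : ℝ) :=
    Finset.sum_le_sum fun _ _ => measureReal_le_one
  simp only [Finset.sum_const, Finset.card_univ, Fintype.card_fin, nsmul_eq_mul] at this
  push_cast at this
  linarith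

/-- The 3-copula. -/
noncomputable def three (x : Fin 3 → I) : I :=
  ⟨val3 (fun i => (x i : ℝ)), val3_nonneg _, val3_le_one _⟩

lemma isCopula_three : IsCopula three where
  grounded := by
    rintro x ⟨k, hk⟩
    apply Subtype.ext
    show val3 (fun i => (x i : ℝ)) = 0
    rw [val3_eq]
    have hk' : (3 : ℝ) * (x k : ℝ) = 0 := by rw [hk]; simp
    have hk'' : (3 : ℝ) * (x 0 : ℝ) = 0 ∨ (3 : ℝ) * (x 1 : ℝ) = 0 ∨ (3 : ℝ) * (x 2 : ℝ) = 0 := by
      fin_cases k
      · exact Or.inl hk'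
      · exact Or.inr (Or.inl hk')
      · exact Or.inr (Or.inr hk')
    clear hk hk'
    rcases hk'' with hk' | hk' | hk'
    · rw [tm_zero _ _ _ (Or.inr (Or.inr hk')), tm_zero _ _ _ (Or.inr (Or.inl hk')),
        tm_zero _ _ _ (Or.inl hk')]
      simp
    · rw [tm_zero _ _ _ (Or.inl hk'), tm_zero _ _ _ (Or.inr (Or.inr hk')),
        tm_zero _ _ _ (Or.inr (Or.inl hk'))]
      simp
    · rw [tm_zero _ _ _ (Or.inr (Or.inl hk')), tm_zero _ _ _ (Or.inl hk'),
        tm_zero _ _ _ (Or.inr (Or.inr hk'))]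
      simp
  margin := by
    intro x k hx
    apply Subtype.ext
    show val3 (fun i => (x i : ℝ)) = x k
    rw [val3_eq]
    have h0 : (0 : ℝ) ≤ 3 * x k := mul_nonneg (by norm_num) (x k).2.1
    have h3 : (3 : ℝ) * x k ≤ 3 := by
      have := (x k).2.2
      linarith
    have hm := tm_margin (3 * x k) h0 h3
    have hj : ∀ j, j ≠ k → (3 : ℝ) * (x j : ℝ) = 3 := fun j hj => by rw [hx j hj]; simp
    fin_cases k
    · have h1 := hj 1 (by decide)
      have h2 := hj 2 (by decide)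
      simp only [h1, h2]
      simp only [Fin.zero_eta] at hm
      show (1 : ℝ) / 3 * (tm 3 3 (3 * x 0) + tm 3 (3 * x 0) 3 + tm (3 * x 0) 3 3) = x 0
      rw [hm]; ring
    · have h1 := hj 0 (by decide)
      have h2 := hj 2 (by decide)
      simp only [h1, h2]
      simp only [Fin.mk_one] at hm
      show (1 : ℝ) / 3 * (tm (3 * x 1) 3 3 + tm 3 3 (3 * x 1) + tm 3 (3 * x 1) 3) = x 1
      linarith
    · have h1 := hj 0 (by decide)
      have h2 := hj 1 (by decide)
      simp only [h1, h2]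
      simp only [Fin.reduceFinMk] at hm
      show (1 : ℝ) / 3 * (tm 3 (3 * x 2) 3 + tm (3 * x 2) 3 3 + tm 3 3 (3 * x 2)) = x 2
      linarith
  nonneg := by
    intro u v huv
    have h : boxVolume three u v = (1 / 3) * ∑ c : Fin 3, ∑ S : Finset (Fin 3),
        (-1 : ℝ) ^ (3 - S.card) * mu.real (⋂ i, if i ∈ S then E c i (3 * v i)
          else E c i (3 * u i)) := by
      rw [Finset.sum_comm, Finset.mul_sum]
      unfold boxVolume
      refine Finset.sum_congr rfl fun S _ => ?_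
      show (-1 : ℝ) ^ (3 - S.card) * val3 (fun i => ((if i ∈ S then v i else u i : I) : ℝ)) = _
      unfold val3
      rw [← Finset.mul_sum, mul_left_comm]
      congr 2
      refine Finset.sum_congr rfl fun c _ => ?_
      congr 1
      refine iInter_congr fun i => ?_
      by_cases hi : i ∈ S <;> simp [hi]
    rw [h]
    apply mul_nonneg (by norm_num)
    refine Finset.sum_nonneg fun c _ => law_nonneg mu _ _ (fun i => measurable_E _ _ _)
      (fun i => measurable_E _ _ _) (fun i => E_mono c i ?_)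
    have : (u i : ℝ) ≤ v i := huv i
    linarith

/-- The copula agrees with `W` outside of the three regions. -/
lemma three_ne (x : Fin 3 → I) (h : (three x : ℝ) ≠ W x) :
    ∃ c : Fin 3, Reg (3 * (x (c + 1) : ℝ)) (3 * (x (c + 2) : ℝ)) (3 * (x c : ℝ)) := by
  have hb : ∀ i, 0 ≤ 3 * (x i : ℝ) ∧ 3 * (x i : ℝ) ≤ 3 := fun i =>
    ⟨mul_nonneg (by norm_num) (x i).2.1, by have := (x i).2.2; linarith⟩
  rcases key (3 * x 0) (3 * x 1) (3 * x 2) (hb 0).1 (hb 0).2 (hb 1).1 (hb 1).2 (hb 2).1 (hb 2).2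
    with h1 | h1 | h1 | h1
  · exfalso
    apply h
    show val3 (fun i => (x i : ℝ)) = W x
    rw [val3_eq, h1]
    unfold W
    rw [Fin.sum_univ_three]
    push_cast
    rcases le_total ((x 0 : ℝ) + x 1 + x 2 - 3 + 1) 0 with h2 | h2
    · rw [max_eq_right h2, max_eq_right (by linarith)]
      ring
    · rw [max_eq_left h2, max_eq_left (by linarith)]
      ring
  · exact ⟨2, h1⟩
  · exact ⟨1, h1⟩
  · exact ⟨0, h1⟩

end Pool.Agent.Y559.FR
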