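import Pool.Agent.Results.MP_2d7e0f_pr.SupAttained

/-!
# Upper bounds for `s_3` by packing boxes
-/

open MeasureTheory Set Filter Topology
open scoped unitInterval ENNReal

namespace Pool.Agent.Y559.FR

open Pool.Agent.Results.MP_2d7e0f_pr.SupAttained

/-- Expansion of an alternating sum over the subsets of `Fin 3`. -/
lemma sum_sets (g : Finset (Fin 3) → ℝ) :
    ∑ S : Finset (Fin 3), (-1 : ℝ) ^ (3 - S.card) * g S =
      g {0, 1, 2} - g {0, 1} - g {0, 2} - g {1, 2} + g {0} + g {1} + g {2} - g ∅ := by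
  have h : (Finset.univ : Finset (Finset (Fin 3))) =
      {{0, 1, 2}, {0, 1}, {0, 2}, {1, 2}, {0}, {1}, {2}, ∅} := by decide
  rw [h]
  rw [Finset.sum_insert (by decide), Finset.sum_insert (by decide), Finset.sum_insert (by decide),
    Finset.sum_insert (by decide), Finset.sum_insert (by decide), Finset.sum_insert (by decide),
    Finset.sum_insert (by decide), Finset.sum_singleton]
  have c1 : ({0, 1, 2} : Finset (Fin 3)).card = 3 := by decide
  have c2 : ({0, 1} : Finset (Fin 3)).card = 2 := by decide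
  have c3 : ({0, 2} : Finset (Fin 3)).card = 2 := by decide
  have c4 : ({1, 2} : Finset (Fin 3)).card = 2 := by decide
  have c5 : ({0} : Finset (Fin 3)).card = 1 := by decide
  have c6 : ({1} : Finset (Fin 3)).card = 1 := by decide
  have c7 : ({2} : Finset (Fin 3)).card = 1 := by decide
  have c8 : (∅ : Finset (Fin 3)).card = 0 := by decide
  rw [c1, c2, c3, c4, c5, c6, c7, c8]
  norm_num
  ring

/-- `C ≥ W`. -/
lemma W_le' {C : (Fin 3 → I) → I} (hC : IsCopula C) (x : Fin 3 → I) : W x ≤ C x := by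
  unfold W
  refine max_le ?_ (C x).2.1
  have h1 := abs_sub_le_sum hC (fun _ => 1) x
  have h2 : C (fun _ => 1) = 1 := hC.margin (fun _ => 1) 0 (fun _ _ => rfl)
  rw [h2] at h1
  have h3 : ∑ k, |((1 : I) : ℝ) - x k| = (3 : ℕ) - ∑ k, (x k : ℝ) := by
    have : ∀ k, |((1 : I) : ℝ) - x k| = 1 - x k := fun k => by
      rw [abs_of_nonneg]
      · simp
      · have := (x k).2.2
        simpa using this
    simp only [this, Finset.sum_sub_distrib]
    simp
  rw [h3] at h1
  have h4 := (abs_le.1 h1).2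
  have h5 : ((1 : I) : ℝ) = 1 := rfl
  rw [h5] at h4
  linarith

/-- The four sets with sign `+`. -/
def plus : Fin 4 → Finset (Fin 3) := ![{0, 1, 2}, {0}, {1}, {2}]

/-- If the `W`-volume of the box is negative, `C > W` at one of the four vertices with sign `+`. -/
lemma plus_vertex {C : (Fin 3 → I) → I} (hC : IsCopula C) (t y : Fin 3 → I)
    (h : ∀ i, t i ≤ y i)
    (hneg : ∑ S : Finset (Fin 3), (-1 : ℝ) ^ (3 - S.card) *
      W (fun k => if k ∈ S then y k else t k) < 0) :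
    ∃ v : Fin 4, W (fun k => if k ∈ plus v then y k else t k) <
      C (fun k => if k ∈ plus v then y k else t k) := by
  by_contra hcon
  push Not at hcon
  have h1 := hC.nonneg t y h
  unfold boxVolume at h1
  rw [sum_sets (fun S => ((C (fun k => if k ∈ S then y k else t k) : I) : ℝ))] at h1
  rw [sum_sets (fun S => W (fun k => if k ∈ S then y k else t k))] at hneg
  have p0 := hcon 0
  have p1 := hcon 1
  have p2 := hcon 2
  have p3 := hcon 3
  have m1 := W_le' hC (fun k => if k ∈ ({0, 1} : Finset (Fin 3)) then y k else t k)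
  have m2 := W_le' hC (fun k => if k ∈ ({0, 2} : Finset (Fin 3)) then y k else t k)
  have m3 := W_le' hC (fun k => if k ∈ ({1, 2} : Finset (Fin 3)) then y k else t k)
  have m4 := W_le' hC (fun k => if k ∈ (∅ : Finset (Fin 3)) then y k else t k)
  have e0 : plus 0 = {0, 1, 2} := rfl
  have e1 : plus 1 = {0} := rfl
  have e2 : plus 2 = {1} := rfl
  have e3 : plus 3 = {2} := rfl
  rw [e0] at p0
  rw [e1] at p1
  rw [e2] at p2
  rw [e3] at p3
  linarith

/-- The integer version of the `W`-volume. -/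
def fV (h : ℕ × ℕ × ℕ) (k : ℤ) : ℤ :=
  max (k + h.1 + h.2.1 + h.2.2) 0 - max (k + h.1 + h.2.1) 0 - max (k + h.1 + h.2.2) 0 -
    max (k + h.2.1 + h.2.2) 0 + max (k + h.1) 0 + max (k + h.2.1) 0 + max (k + h.2.2) 0 - max k 0

lemma interp (a : ℤ) (θ : ℝ) (h0 : 0 ≤ θ) (h1 : θ ≤ 1) :
    max ((a : ℝ) + θ) 0 = (1 - θ) * max (a : ℝ) 0 + θ * max ((a : ℝ) + 1) 0 := by
  rcases le_or_gt 0 a with h | h
  · have : (0 : ℝ) ≤ a := by exact_mod_cast h
    rw [max_eq_left (by linarith), max_eq_left this, max_eq_left (by linarith)]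
    ring
  · have h' : a + 1 ≤ 0 := h
    have : (a : ℝ) + 1 ≤ 0 := by exact_mod_cast h'
    rw [max_eq_right (by linarith), max_eq_right (by linarith), max_eq_right this]
    ring

/-- The real version. -/
noncomputable def rV (h : ℕ × ℕ × ℕ) (s : ℝ) : ℝ :=
  max (s + h.1 + h.2.1 + h.2.2) 0 - max (s + h.1 + h.2.1) 0 - max (s + h.1 + h.2.2) 0 -
    max (s + h.2.1 + h.2.2) 0 + max (s + h.1) 0 + max (s + h.2.1) 0 + max (s + h.2.2) 0 - max s 0

lemma rV_interp (h : ℕ × ℕ × ℕ) (k : ℤ) (θ : ℝ) (h0 : 0 ≤ θ) (h1 : θ ≤ 1) :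
    rV h (k + θ) = (1 - θ) * (fV h k : ℝ) + θ * (fV h (k + 1) : ℝ) := by
  have key : ∀ b : ℕ, max ((k : ℝ) + θ + b) 0 =
      (1 - θ) * max ((k : ℝ) + b) 0 + θ * max ((k : ℝ) + 1 + b) 0 := by
    intro b
    have := interp (k + b) θ h0 h1
    push_cast at this
    rw [show (k : ℝ) + θ + b = k + b + θ by ring, this,
      show (k : ℝ) + 1 + b = k + b + 1 by ring]
  have k0 := key 0
  have k1 := key h.1
  have k2 := key h.2.1
  have k3 := key h.2.2
  have k12 := key (h.1 + h.2.1)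
  have k13 := key (h.1 + h.2.2)
  have k23 := key (h.2.1 + h.2.2)
  have k123 := key (h.1 + h.2.1 + h.2.2)
  push_cast at k0 k12 k13 k23 k123
  simp only [add_zero] at k0
  unfold rV fV
  push_cast
  rw [show (k : ℝ) + θ + h.1 + h.2.1 + h.2.2 = k + θ + (h.1 + h.2.1 + h.2.2) by ring,
    show (k : ℝ) + θ + h.1 + h.2.1 = k + θ + (h.1 + h.2.1) by ring,
    show (k : ℝ) + θ + h.1 + h.2.2 = k + θ + (h.1 + h.2.2) by ring,
    show (k : ℝ) + θ + h.2.1 + h.2.2 = k + θ + (h.2.1 + h.2.2) by ring,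
    k0, k1, k2, k3, k12, k13, k23, k123]
  rw [show (k : ℝ) + h.1 + h.2.1 + h.2.2 = k + (h.1 + h.2.1 + h.2.2) by ring,
    show (k : ℝ) + h.1 + h.2.1 = k + (h.1 + h.2.1) by ring,
    show (k : ℝ) + h.1 + h.2.2 = k + (h.1 + h.2.2) by ring,
    show (k : ℝ) + h.2.1 + h.2.2 = k + (h.2.1 + h.2.2) by ring,
    show (k : ℝ) + 1 + h.1 + h.2.1 + h.2.2 = k + 1 + (h.1 + h.2.1 + h.2.2) by ring,
    show (k : ℝ) + 1 + h.1 + h.2.1 = k + 1 + (h.1 + h.2.1) by ring,
    show (k : ℝ) + 1 + h.1 + h.2.2 = k + 1 + (h.1 + h.2.2) by ring,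
    show (k : ℝ) + 1 + h.2.1 + h.2.2 = k + 1 + (h.2.1 + h.2.2) by ring]
  ring

/-- The `W`-volume is negative on an open interval. -/
lemma rV_neg (h : ℕ × ℕ × ℕ) (S : ℤ) (h0 : fV h S ≤ 0) (h1 : fV h (S + 1) < 0)
    (h2 : fV h (S + 2) < 0) (h3 : fV h (S + 3) ≤ 0) (s : ℝ) (hs : (S : ℝ) < s)
    (hs' : s < S + 3) : rV h s < 0 := by
  have h0' : (fV h S : ℝ) ≤ 0 := by exact_mod_cast h0
  have h1' : (fV h (S + 1) : ℝ) < 0 := by exact_mod_cast h1
  have h2' : (fV h (S + 2) : ℝ) < 0 := by exact_mod_cast h2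
  have h3' : (fV h (S + 3) : ℝ) ≤ 0 := by exact_mod_cast h3
  rcases le_total s (S + 1) with hA | hA
  · have h := rV_interp h S (s - S) (by linarith) (by linarith)
    rw [show (S : ℝ) + (s - S) = s by ring] at h
    rw [h]
    nlinarith
  · rcases le_total s (S + 2) with hB | hB
    · have h := rV_interp h (S + 1) (s - (S + 1)) (by linarith) (by linarith)
      push_cast at h
      rw [show (S : ℝ) + 1 + (s - (S + 1)) = s by ring, show S + 1 + 1 = S + 2 by ring] at h
      rw [h]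
      rcases eq_or_lt_of_le hA with hA' | hA'
      · rw [← hA']; ring_nf; ring_nf at h1'; linarith
      · nlinarith
    · have h := rV_interp h (S + 2) (s - (S + 2)) (by linarith) (by linarith)
      push_cast at h
      rw [show (S : ℝ) + 2 + (s - (S + 2)) = s by ring, show S + 2 + 1 = S + 3 by ring] at h
      rw [h]
      nlinarith

end Pool.Agent.Y559.FR
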