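import Pool.Agent.Y559.FR.UpA

/-!
# Upper bounds for `s_3` by packing boxes: the measure part
-/

open MeasureTheory Set Filter Topology
open scoped unitInterval ENNReal

namespace Pool.Agent.Y559.FR

open Pool.Agent.Results.MP_2d7e0f_pr.SupAttained

/-- Projection onto the cube. -/
noncomputable def P (x : Fin 3 → ℝ) : Fin 3 → I := fun i => Set.projIcc 0 1 zero_le_one (x i)

/-- The cube. -/
def Q : Set (Fin 3 → ℝ) := Set.pi univ fun _ => (I : Set ℝ)

/-- The set of disagreement, in `ℝ^3`. -/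
def Dr (C : (Fin 3 → I) → I) : Set (Fin 3 → ℝ) := {x | W (P x) < (C (P x) : ℝ)} ∩ Q

lemma measurable_Dr {C : (Fin 3 → I) → I} (hC : IsCopula C) :
    MeasurableSet {x : Fin 3 → ℝ | W (P x) < (C (P x) : ℝ)} := by
  have hP : Continuous P := by
    unfold P
    exact continuous_pi fun i => continuous_projIcc.comp (continuous_apply i)
  exact (isOpen_lt (continuous_W.comp hP) ((continuous_copula hC).comp hP)).measurableSet

lemma measurable_Q : MeasurableSet Q := MeasurableSet.univ_pi fun _ => measurableSet_Icc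

lemma volume_Dr {C : (Fin 3 → I) → I} (hC : IsCopula C) :
    (volume : Measure (Fin 3 → ℝ)) (Dr C) =
      (volume : Measure (Fin 3 → I)) {x | W x < (C x : ℝ)} := by
  have hmp : MeasurePreserving (fun (a : Fin 3 → I) (i : Fin 3) => (a i : ℝ))
      (Measure.pi fun _ => (volume : Measure I))
      (Measure.pi fun _ => (volume : Measure ℝ).restrict I) :=
    measurePreserving_pi (fun _ => (volume : Measure I)) (fun _ => (volume : Measure ℝ).restrict I)
      (fun _ => unitInterval.measurePreserving_coe)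
  rw [← Measure.restrict_pi_pi] at hmp
  have h1 := hmp.measure_preimage (measurable_Dr hC).nullMeasurableSet
  have h2 : (fun (a : Fin 3 → I) (i : Fin 3) => (a i : ℝ)) ⁻¹'
      {x : Fin 3 → ℝ | W (P x) < (C (P x) : ℝ)} = {x | W x < (C x : ℝ)} := by
    ext x
    have : P (fun i => (x i : ℝ)) = x := by
      funext i
      exact Set.projIcc_val zero_le_one (x i)
    simp only [mem_preimage, mem_ofPred_eq, this]
  rw [h2, Measure.restrict_apply (measurable_Dr hC)] at h1
  exact h1.symm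

/-- Triples as functions. -/
def toFn (c : ℕ × ℕ × ℕ) : Fin 3 → ℕ := ![c.1, c.2.1, c.2.2]

/-- Open grid cells. -/
def cellO (m : ℕ) (c : ℕ × ℕ × ℕ) : Set (Fin 3 → ℝ) :=
  Set.pi univ fun i => Ioo ((toFn c i : ℝ) / m) (((toFn c i : ℝ) + 1) / m)

lemma measurable_cellO (m : ℕ) (c : ℕ × ℕ × ℕ) : MeasurableSet (cellO m c) :=
  MeasurableSet.univ_pi fun _ => measurableSet_Ioo

lemma volume_cellO (m : ℕ) (c : ℕ × ℕ × ℕ) :
    (volume : Measure (Fin 3 → ℝ)) (cellO m c) = ENNReal.ofReal ((1 / (m : ℝ)) ^ 3) := by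
  unfold cellO
  rw [Real.volume_pi_Ioo]
  have : ∀ i : Fin 3, ((toFn c i : ℝ) + 1) / m - (toFn c i : ℝ) / m = 1 / m := fun i => by ring
  simp only [this, Finset.prod_const, Finset.card_univ, Fintype.card_fin]
  rw [ENNReal.ofReal_pow (by positivity)]

lemma cellO_disjoint (m : ℕ) (hm : 0 < m) {c d : ℕ × ℕ × ℕ} (hcd : c ≠ d) :
    Disjoint (cellO m c) (cellO m d) := by
  rw [Set.disjoint_left]
  intro x hx hx'
  apply hcd
  have hm' : (0 : ℝ) < m := by exact_mod_cast hm
  have key : ∀ i : Fin 3, toFn c i = toFn d i := by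
    intro i
    have h1 := hx i (mem_univ i)
    have h2 := hx' i (mem_univ i)
    simp only [mem_Ioo] at h1 h2
    have a1 := h1.1.trans h2.2
    have a2 := h2.1.trans h1.2
    rw [div_lt_div_iff_of_pos_right hm'] at a1 a2
    have b1 : toFn c i < toFn d i + 1 := by exact_mod_cast a1
    have b2 : toFn d i < toFn c i + 1 := by exact_mod_cast a2
    omega
  have k0 : c.1 = d.1 := key 0
  have k1 : c.2.1 = d.2.1 := key 1
  have k2 : c.2.2 = d.2.2 := key 2
  exact Prod.ext k0 (Prod.ext k1 k2)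

/-- The vertex cells of a configuration. -/
def vert (T h : ℕ × ℕ × ℕ) (v : Fin 4) : ℕ × ℕ × ℕ :=
  (if 0 ∈ plus v then T.1 + h.1 else T.1, if 1 ∈ plus v then T.2.1 + h.2.1 else T.2.1,
    if 2 ∈ plus v then T.2.2 + h.2.2 else T.2.2)

lemma toFn_vert (T h : ℕ × ℕ × ℕ) (v : Fin 4) (k : Fin 3) :
    toFn (vert T h v) k = if k ∈ plus v then toFn T k + toFn h k else toFn T k := by
  fin_cases k <;> rfl

/-- Admissible configurations. -/
def good (m : ℕ) (T h : ℕ × ℕ × ℕ) : Prop :=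
  T.1 + h.1 + 1 ≤ m ∧ T.2.1 + h.2.1 + 1 ≤ m ∧ T.2.2 + h.2.2 + 1 ≤ m ∧
    fV h ((T.1 : ℤ) + T.2.1 + T.2.2 - 2 * m) ≤ 0 ∧
    fV h ((T.1 : ℤ) + T.2.1 + T.2.2 - 2 * m + 1) < 0 ∧
    fV h ((T.1 : ℤ) + T.2.1 + T.2.2 - 2 * m + 2) < 0 ∧
    fV h ((T.1 : ℤ) + T.2.1 + T.2.2 - 2 * m + 3) ≤ 0

instance (m : ℕ) (T h : ℕ × ℕ × ℕ) : Decidable (good m T h) := by
  unfold good
  infer_instance

/-- The translation vector. -/
noncomputable def shift (m : ℕ) (h : ℕ × ℕ × ℕ) (v : Fin 4) : Fin 3 → ℝ :=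
  fun k => if k ∈ plus v then (toFn h k : ℝ) / m else 0

lemma pointwise {C : (Fin 3 → I) → I} (hC : IsCopula C) (m : ℕ) (hm : 0 < m)
    (T h : ℕ × ℕ × ℕ) (hg : good m T h) (x : Fin 3 → ℝ) (hx : x ∈ cellO m T) :
    ∃ v : Fin 4, x + shift m h v ∈ cellO m (vert T h v) ∩ Dr C := by
  have hm' : (0 : ℝ) < m := by exact_mod_cast hm
  obtain ⟨g1, g2, g3, g4, g5, g6, g7⟩ := hg
  have hxi : ∀ i : Fin 3, (toFn T i : ℝ) / m < x i ∧ x i < ((toFn T i : ℝ) + 1) / m := fun i =>
    hx i (mem_univ i)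
  have hTh : ∀ i : Fin 3, (toFn T i : ℝ) + toFn h i + 1 ≤ m := by
    intro i
    fin_cases i
    · show ((T.1 : ℕ) : ℝ) + h.1 + 1 ≤ m
      exact_mod_cast g1
    · show ((T.2.1 : ℕ) : ℝ) + h.2.1 + 1 ≤ m
      exact_mod_cast g2
    · show ((T.2.2 : ℕ) : ℝ) + h.2.2 + 1 ≤ m
      exact_mod_cast g3
  have hx0 : ∀ i, 0 ≤ x i := fun i => by
    have h1 : (0 : ℝ) ≤ (toFn T i : ℝ) / m := by positivity
    linarith [(hxi i).1]
  have hx1 : ∀ i, x i + (toFn h i : ℝ) / m ≤ 1 := fun i => by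
    have h1 := (hxi i).2
    have h2 : ((toFn T i : ℝ) + 1) / m + (toFn h i : ℝ) / m ≤ 1 := by
      rw [← add_div, div_le_one hm']
      linarith [hTh i]
    linarith
  have hh0 : ∀ i, (0 : ℝ) ≤ (toFn h i : ℝ) / m := fun i => by positivity
  set t : Fin 3 → I := P x with ht
  set y : Fin 3 → I := P (fun i => x i + (toFn h i : ℝ) / m) with hy
  have ht' : ∀ i, (t i : ℝ) = x i := fun i => by
    have : x i ∈ Icc (0 : ℝ) 1 := ⟨hx0 i, by linarith [hx1 i, hh0 i]⟩
    rw [ht]
    show ((Set.projIcc 0 1 zero_le_one (x i) : I) : ℝ) = x i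
    rw [Set.projIcc_of_mem _ this]
  have hy' : ∀ i, (y i : ℝ) = x i + (toFn h i : ℝ) / m := fun i => by
    have : x i + (toFn h i : ℝ) / m ∈ Icc (0 : ℝ) 1 := ⟨by linarith [hx0 i, hh0 i], hx1 i⟩
    rw [hy]
    show ((Set.projIcc 0 1 zero_le_one (x i + (toFn h i : ℝ) / m) : I) : ℝ) = _
    rw [Set.projIcc_of_mem _ this]
  have hty : ∀ i, t i ≤ y i := fun i => by
    rw [← Subtype.coe_le_coe, ht', hy']
    linarith [hh0 i]
  have hWS : ∀ S : Finset (Fin 3), (m : ℝ) * W (fun k => if k ∈ S then y k else t k) =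
      max ((m * (x 0 + x 1 + x 2) - 2 * m) + (if 0 ∈ S then (h.1 : ℝ) else 0) +
        (if 1 ∈ S then (h.2.1 : ℝ) else 0) + (if 2 ∈ S then (h.2.2 : ℝ) else 0)) 0 := by
    intro S
    unfold W
    rw [Fin.sum_univ_three]
    have e : ∀ k : Fin 3, (((if k ∈ S then y k else t k : I)) : ℝ) =
        x k + (if k ∈ S then (toFn h k : ℝ) / m else 0) := by
      intro k
      by_cases hk : k ∈ S
      · rw [if_pos hk, if_pos hk, hy']
      · rw [if_neg hk, if_neg hk, ht', add_zero]
    rw [e 0, e 1, e 2]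
    have t0 : toFn h 0 = h.1 := rfl
    have t1 : toFn h 1 = h.2.1 := rfl
    have t2 : toFn h 2 = h.2.2 := rfl
    rw [t0, t1, t2, mul_max_of_nonneg _ _ hm'.le, mul_zero]
    congr 1
    push_cast
    split_ifs <;> field_simp <;> ring
  have hneg : ∑ S : Finset (Fin 3), (-1 : ℝ) ^ (3 - S.card) *
      W (fun k => if k ∈ S then y k else t k) < 0 := by
    rw [sum_sets (fun S => W (fun k => if k ∈ S then y k else t k))]
    have hs1 : (((T.1 : ℤ) + T.2.1 + T.2.2 - 2 * m : ℤ) : ℝ) < m * (x 0 + x 1 + x 2) - 2 * m := by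
      have a0 := (hxi 0).1
      have a1 := (hxi 1).1
      have a2 := (hxi 2).1
      rw [div_lt_iff₀ hm'] at a0 a1 a2
      have t0 : toFn T 0 = T.1 := rfl
      have t1 : toFn T 1 = T.2.1 := rfl
      have t2 : toFn T 2 = T.2.2 := rfl
      rw [t0] at a0
      rw [t1] at a1
      rw [t2] at a2
      push_cast
      linarith
    have hs2 : m * (x 0 + x 1 + x 2) - 2 * m <
        (((T.1 : ℤ) + T.2.1 + T.2.2 - 2 * m : ℤ) : ℝ) + 3 := by
      have a0 := (hxi 0).2
      have a1 := (hxi 1).2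
      have a2 := (hxi 2).2
      rw [lt_div_iff₀ hm'] at a0 a1 a2
      have t0 : toFn T 0 = T.1 := rfl
      have t1 : toFn T 1 = T.2.1 := rfl
      have t2 : toFn T 2 = T.2.2 := rfl
      rw [t0] at a0
      rw [t1] at a1
      rw [t2] at a2
      push_cast
      linarith
    have hr := rV_neg h _ g4 g5 g6 g7 _ hs1 hs2
    unfold rV at hr
    have w012 := hWS {0, 1, 2}
    have w01 := hWS {0, 1}
    have w02 := hWS {0, 2}
    have w12 := hWS {1, 2}
    have w0 := hWS {0}
    have w1 := hWS {1}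
    have w2 := hWS {2}
    have we := hWS ∅
    simp only [if_pos (show (0 : Fin 3) ∈ ({0, 1, 2} : Finset (Fin 3)) by decide),
      if_pos (show (1 : Fin 3) ∈ ({0, 1, 2} : Finset (Fin 3)) by decide),
      if_pos (show (2 : Fin 3) ∈ ({0, 1, 2} : Finset (Fin 3)) by decide)] at w012
    simp only [if_pos (show (0 : Fin 3) ∈ ({0, 1} : Finset (Fin 3)) by decide),
      if_pos (show (1 : Fin 3) ∈ ({0, 1} : Finset (Fin 3)) by decide),
      if_neg (show (2 : Fin 3) ∉ ({0, 1} : Finset (Fin 3)) by decide), add_zero] at w01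
    simp only [if_pos (show (0 : Fin 3) ∈ ({0, 2} : Finset (Fin 3)) by decide),
      if_neg (show (1 : Fin 3) ∉ ({0, 2} : Finset (Fin 3)) by decide),
      if_pos (show (2 : Fin 3) ∈ ({0, 2} : Finset (Fin 3)) by decide), add_zero] at w02
    simp only [if_neg (show (0 : Fin 3) ∉ ({1, 2} : Finset (Fin 3)) by decide),
      if_pos (show (1 : Fin 3) ∈ ({1, 2} : Finset (Fin 3)) by decide),
      if_pos (show (2 : Fin 3) ∈ ({1, 2} : Finset (Fin 3)) by decide), add_zero] at w12
    simp only [if_pos (show (0 : Fin 3) ∈ ({0} : Finset (Fin 3)) by decide),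
      if_neg (show (1 : Fin 3) ∉ ({0} : Finset (Fin 3)) by decide),
      if_neg (show (2 : Fin 3) ∉ ({0} : Finset (Fin 3)) by decide), add_zero] at w0
    simp only [if_neg (show (0 : Fin 3) ∉ ({1} : Finset (Fin 3)) by decide),
      if_pos (show (1 : Fin 3) ∈ ({1} : Finset (Fin 3)) by decide),
      if_neg (show (2 : Fin 3) ∉ ({1} : Finset (Fin 3)) by decide), add_zero] at w1
    simp only [if_neg (show (0 : Fin 3) ∉ ({2} : Finset (Fin 3)) by decide),
      if_neg (show (1 : Fin 3) ∉ ({2} : Finset (Fin 3)) by decide),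
      if_pos (show (2 : Fin 3) ∈ ({2} : Finset (Fin 3)) by decide), add_zero] at w2
    simp only [if_neg (show (0 : Fin 3) ∉ (∅ : Finset (Fin 3)) by decide),
      if_neg (show (1 : Fin 3) ∉ (∅ : Finset (Fin 3)) by decide),
      if_neg (show (2 : Fin 3) ∉ (∅ : Finset (Fin 3)) by decide), add_zero] at we
    rw [← w012, ← w01, ← w02, ← w12, ← w0, ← w1, ← w2, ← we] at hr
    by_contra hcon
    rw [not_lt] at hcon
    have := mul_nonneg hm'.le hcon
    linarith
  obtain ⟨v, hv⟩ := plus_vertex hC t y hty hneg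
  refine ⟨v, ?_, ?_, ?_⟩
  · intro k _
    have h1 := hxi k
    show (toFn (vert T h v) k : ℝ) / m < x k + shift m h v k ∧
      x k + shift m h v k < ((toFn (vert T h v) k : ℝ) + 1) / m
    rw [toFn_vert]
    unfold shift
    by_cases hk : k ∈ plus v
    · rw [if_pos hk, if_pos hk]
      push_cast
      constructor
      · rw [add_div]; linarith [h1.1]
      · rw [show ((toFn T k : ℝ) + toFn h k + 1) / m = ((toFn T k : ℝ) + 1) / m +
          (toFn h k : ℝ) / m by ring]
        linarith [h1.2]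
    · rw [if_neg hk, if_neg hk, add_zero]
      exact h1
  · have : P (x + shift m h v) = fun k => if k ∈ plus v then y k else t k := by
      funext k
      show Set.projIcc 0 1 zero_le_one (x k + shift m h v k) = _
      unfold shift
      by_cases hk : k ∈ plus v
      · rw [if_pos hk, if_pos hk]; rfl
      · rw [if_neg hk, if_neg hk, add_zero]; rfl
    show W (P (x + shift m h v)) < (C (P (x + shift m h v)) : ℝ)
    rw [this]
    exact hv
  · intro k _
    show x k + shift m h v k ∈ Icc (0 : ℝ) 1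
    unfold shift
    by_cases hk : k ∈ plus v
    · rw [if_pos hk]
      exact ⟨by linarith [hx0 k, hh0 k], hx1 k⟩
    · rw [if_neg hk, add_zero]
      exact ⟨hx0 k, by linarith [hx1 k, hh0 k]⟩

/-- One configuration. -/
lemma tuple_le {C : (Fin 3 → I) → I} (hC : IsCopula C) (m : ℕ) (hm : 0 < m)
    (T h : ℕ × ℕ × ℕ) (hg : good m T h) :
    ENNReal.ofReal ((1 / (m : ℝ)) ^ 3) ≤
      ∑ v : Fin 4, (volume : Measure (Fin 3 → ℝ)) (cellO m (vert T h v) ∩ Dr C) := by
  rw [← volume_cellO m T]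
  have hsub : cellO m T ⊆ ⋃ v : Fin 4, (fun x => x + shift m h v) ⁻¹'
      (cellO m (vert T h v) ∩ Dr C) := by
    intro x hx
    obtain ⟨v, hv⟩ := pointwise hC m hm T h hg x hx
    exact mem_iUnion.2 ⟨v, hv⟩
  refine (measure_mono hsub).trans ((measure_iUnion_fintype_le _ _).trans ?_)
  refine Finset.sum_le_sum fun v _ => ?_
  rw [measure_preimage_add_right]

/-- The four cells of a configuration. -/
def cells4 (d : (ℕ × ℕ × ℕ) × (ℕ × ℕ × ℕ)) : List (ℕ × ℕ × ℕ) :=
  [vert d.1 d.2 0, vert d.1 d.2 1, vert d.1 d.2 2, vert d.1 d.2 3]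

lemma sum_list_le {C : (Fin 3 → I) → I} (hC : IsCopula C) (m : ℕ) (hm : 0 < m)
    (L : List (ℕ × ℕ × ℕ)) (hL : L.Nodup) :
    (L.map fun c => (volume : Measure (Fin 3 → ℝ)) (cellO m c ∩ Dr C)).sum ≤
      (volume : Measure (Fin 3 → ℝ)) (Dr C) := by
  rw [← List.sum_toFinset _ hL]
  rw [← measure_biUnion_finset]
  · apply measure_mono
    exact iUnion₂_subset fun c _ => inter_subset_right
  · intro c _ d _ hcd
    exact (cellO_disjoint m hm hcd).mono inter_subset_left inter_subset_left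
  · intro c _
    exact (measurable_cellO m c).inter ((measurable_Dr hC).inter measurable_Q)

/-- The packing bound. -/
lemma pack {C : (Fin 3 → I) → I} (hC : IsCopula C) (m : ℕ) (hm : 0 < m)
    (l : List ((ℕ × ℕ × ℕ) × (ℕ × ℕ × ℕ))) (hg : ∀ d ∈ l, good m d.1 d.2)
    (hnd : (l.flatMap cells4).Nodup) :
    ENNReal.ofReal (l.length * (1 / (m : ℝ)) ^ 3) ≤
      (volume : Measure (Fin 3 → I)) {x | W x < (C x : ℝ)} := by
  rw [← volume_Dr hC]
  refine le_trans ?_ (sum_list_le hC m hm _ hnd)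
  clear hnd
  induction l with
  | nil => simp
  | cons d l ih =>
    have h1 := ih (fun d hd => hg d (List.mem_cons_of_mem _ hd))
    have h2 := tuple_le hC m hm d.1 d.2 (hg d List.mem_cons_self)
    rw [List.flatMap_cons, List.map_append, List.sum_append]
    have h3 : ((cells4 d).map fun c => (volume : Measure (Fin 3 → ℝ)) (cellO m c ∩ Dr C)).sum =
        ∑ v : Fin 4, (volume : Measure (Fin 3 → ℝ)) (cellO m (vert d.1 d.2 v) ∩ Dr C) := by
      rw [Fin.sum_univ_four]
      simp only [cells4, List.map_cons, List.map_nil, List.sum_cons, List.sum_nil, add_zero]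
      ring
    rw [h3]
    refine le_trans ?_ (add_le_add h2 h1)
    rw [← ENNReal.ofReal_add (by positivity) (by positivity)]
    apply ENNReal.ofReal_le_ofReal
    rw [List.length_cons]
    push_cast
    apply le_of_eq
    ring

end Pool.Agent.Y559.FR
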