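import Pool.Agent.Y559.FR.UpB

/-!
# A fast check of the disjointness of the cells
-/

open MeasureTheory Set Filter Topology
open scoped unitInterval ENNReal

namespace Pool.Agent.Y559.FR

open Pool.Agent.Results.MP_2d7e0f_pr.SupAttained

/-- Check by bit masks that the list has no duplicates and avoids the set bits of `acc`. -/
def chk : List ℕ → ℕ → Bool
  | [], _ => true
  | c :: cs, acc => !(acc.testBit c) && chk cs (acc ||| (1 <<< c))

lemma chk_spec (L : List ℕ) : ∀ acc : ℕ, chk L acc = true →
    L.Nodup ∧ ∀ c ∈ L, acc.testBit c = false := by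
  induction L with
  | nil => intro acc _; exact ⟨List.nodup_nil, by simp⟩
  | cons c cs ih =>
    intro acc h
    rw [chk, Bool.and_eq_true] at h
    obtain ⟨h1, h2⟩ := ih _ h.2
    have h3 : acc.testBit c = false := by simpa using h.1
    refine ⟨List.nodup_cons.2 ⟨fun hc => ?_, h1⟩, ?_⟩
    · have := h2 c hc
      rw [Nat.testBit_or, Bool.or_eq_false_iff] at this
      have h4 := this.2
      rw [Nat.one_shiftLeft, Nat.testBit_two_pow_self] at h4
      exact Bool.noConfusion h4
    · intro d hd
      rcases List.mem_cons.1 hd with rfl | hd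
      · exact h3
      · have := h2 d hd
        rw [Nat.testBit_or, Bool.or_eq_false_iff] at this
        exact this.1

/-- The code of a cell. -/
def code (c : ℕ × ℕ × ℕ) : ℕ := (c.1 * 64 + c.2.1) * 64 + c.2.2

lemma nodup_of_chk (L : List (ℕ × ℕ × ℕ)) (h : chk (L.map code) 0 = true) : L.Nodup :=
  List.Nodup.of_map _ (chk_spec _ 0 h).1

/-- The packing bound with the fast check. -/
lemma pack_chk {C : (Fin 3 → I) → I} (hC : IsCopula C) (m : ℕ) (hm : 0 < m)
    (l : List ((ℕ × ℕ × ℕ) × (ℕ × ℕ × ℕ))) (hg : (l.all fun d => decide (good m d.1 d.2)) = true)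
    (hnd : chk ((l.flatMap cells4).map code) 0 = true) :
    ENNReal.ofReal (l.length * (1 / (m : ℝ)) ^ 3) ≤
      (volume : Measure (Fin 3 → I)) {x | W x < (C x : ℝ)} :=
  pack hC m hm l (fun d hd => of_decide_eq_true (List.all_eq_true.1 hg d hd))
    (nodup_of_chk _ hnd)

/-- The upper bound for `s_3` from a packing. -/
lemma s_three_le (κ : ℝ) (h0 : 0 ≤ κ) (h : ∀ C : (Fin 3 → I) → I, IsCopula C →
    ENNReal.ofReal κ ≤ (volume : Measure (Fin 3 → I)) {x | W x < (C x : ℝ)}) :
    (s 3).toReal ≤ 1 - κ := by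
  obtain ⟨_, C, hC, hCs⟩ := Pool.Agent.Results.MP_2d7e0f_pr.SupAttained.result 3 le_rfl
  have h1 := h C hC
  have hm : MeasurableSet {x : Fin 3 → I | W x < (C x : ℝ)} :=
    (isOpen_lt continuous_W (continuous_copula hC)).measurableSet
  have h2 : s 3 + ENNReal.ofReal κ ≤ 1 := by
    rw [← hCs]
    refine (add_le_add le_rfl h1).trans ?_
    rw [← measure_union _ hm]
    · exact prob_le_one
    · rw [Set.disjoint_left]
      intro x hx hx'
      have e1 : (C x : ℝ) = W x := hx
      have e2 : W x < (C x : ℝ) := hx'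
      linarith
  have hs : s 3 ≠ ∞ := by
    intro hs
    rw [hs] at h2
    simp at h2
  have h3 := ENNReal.toReal_mono ENNReal.one_ne_top h2
  rw [ENNReal.toReal_add hs ENNReal.ofReal_ne_top, ENNReal.toReal_ofReal h0,
    ENNReal.toReal_one] at h3
  linarith

end Pool.Agent.Y559.FR
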